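import Pool.Agent.Q194.RW.Stat

/-!
# Cyclic chains of Lindley operators: uniqueness
-/

namespace Q194.RW

open Finset Filter Topology

section one

variable {p : ℕ → ℝ} {a : ℕ}

lemma cv_add (p v w : ℕ → ℝ) (n : ℕ) : cv p (fun k => v k + w k) n = cv p v n + cv p w n := by
  unfold cv
  rw [← sum_add_distrib]
  exact sum_congr rfl fun i _ => by ring

lemma cv_smul (p v : ℕ → ℝ) (c : ℝ) (n : ℕ) : cv p (fun k => c * v k) n = c * cv p v n := by
  unfold cv
  rw [mul_sum]
  exact sum_congr rfl fun i _ => by ring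

lemma Lin_add (v w : ℕ → ℝ) (k : ℕ) : Lin p a (fun k => v k + w k) k = Lin p a v k + Lin p a w k := by
  unfold Lin
  simp only [cv_add]
  split_ifs
  · rw [sum_add_distrib]
  · rfl

lemma Lin_smul (c : ℝ) (v : ℕ → ℝ) (k : ℕ) : Lin p a (fun k => c * v k) k = c * Lin p a v k := by
  unfold Lin
  simp only [cv_smul]
  split_ifs
  · rw [mul_sum]
  · rfl

lemma cv_nonneg (hp : ∀ n, 0 ≤ p n) {v : ℕ → ℝ} (hv : ∀ n, 0 ≤ v n) (n : ℕ) : 0 ≤ cv p v n :=
  sum_nonneg fun i _ => mul_nonneg (hp i) (hv _)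

lemma Lin_nonneg (hp : ∀ n, 0 ≤ p n) {v : ℕ → ℝ} (hv : ∀ n, 0 ≤ v n) (k : ℕ) : 0 ≤ Lin p a v k := by
  unfold Lin
  split_ifs
  · exact sum_nonneg fun n _ => cv_nonneg hp hv n
  · exact cv_nonneg hp hv _

lemma cv_abs (hp : ∀ n, 0 ≤ p n) (v : ℕ → ℝ) (n : ℕ) : |cv p v n| ≤ cv p (fun k => |v k|) n := by
  unfold cv
  refine (abs_sum_le_sum_abs _ _).trans (sum_le_sum fun i _ => ?_)
  rw [abs_mul, abs_of_nonneg (hp i)]

lemma Lin_abs (hp : ∀ n, 0 ≤ p n) (v : ℕ → ℝ) (k : ℕ) :
    |Lin p a v k| ≤ Lin p a (fun k => |v k|) k := by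
  unfold Lin
  split_ifs
  · exact (abs_sum_le_sum_abs _ _).trans (sum_le_sum fun n _ => cv_abs hp v n)
  · exact cv_abs hp v _

/-- the convolution of summable sequences -/
lemma cv_hasSum (hp : ∀ n, 0 ≤ p n) (hp1 : HasSum p 1) {v : ℕ → ℝ} (hv : Summable fun n => |v n|) :
    (Summable fun n => |cv p v n|) ∧ HasSum (cv p v) (∑' n, v n) := by
  have hpn : Summable fun n => ‖p n‖ := by
    refine hp1.summable.congr fun n => ?_
    rw [Real.norm_eq_abs, abs_of_nonneg (hp n)]
  have hvn : Summable fun n => ‖v n‖ := hv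
  have h1 := summable_norm_sum_mul_range_of_summable_norm hpn hvn
  have h2 := tsum_mul_tsum_eq_tsum_sum_range_of_summable_norm hpn hvn
  refine ⟨h1, ?_⟩
  rw [hp1.tsum_eq, one_mul] at h2
  rw [h2]
  exact h1.of_norm.hasSum

/-- The Lindley operator preserves the sum. -/
lemma Lin_hasSum (hp : ∀ n, 0 ≤ p n) (hp1 : HasSum p 1) {v : ℕ → ℝ} (hv : Summable fun n => |v n|) :
    (Summable fun n => |Lin p a v n|) ∧ HasSum (Lin p a v) (∑' n, v n) := by
  obtain ⟨h1, h2⟩ := cv_hasSum hp hp1 hv
  have hsucc : ∀ k, Lin p a v (k + 1) = cv p v (k + (a + 1)) := by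
    intro k
    rw [Lin, if_neg (Nat.succ_ne_zero k)]
    congr 1
    omega
  have h3 : Summable fun k => |Lin p a v (k + 1)| := by
    simp only [hsucc]
    exact (summable_nat_add_iff (f := fun n => |cv p v n|) (a + 1)).2 h1
  have h4 := (hasSum_nat_add_iff' (a + 1)).2 h2
  have h5 : ∑ i ∈ range 1, Lin p a v i = ∑ i ∈ range (a + 1), cv p v i := by
    rw [sum_range_one, Lin, if_pos rfl]
  have h6 : HasSum (fun n => Lin p a v (n + 1)) (∑' n, v n - ∑ i ∈ range 1, Lin p a v i) := by
    rw [h5]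
    refine h4.congr_fun fun n => ?_
    rw [hsucc]
  have h7 := (summable_nat_add_iff (f := fun n => |Lin p a v n|) 1).1 h3
  have h8 := (hasSum_nat_add_iff' (f := Lin p a v) 1).1 h6
  exact ⟨h7, h8⟩

/-- The state may go down by `a`. -/
lemma Lin_down (hp : ∀ n, 0 ≤ p n) (hp0 : 0 < p 0) {v : ℕ → ℝ} (hv : ∀ n, 0 ≤ v n) {x : ℕ}
    (hx : 0 < v x) : 0 < Lin p a v (x - a) := by
  have h1 : 0 < cv p v x := by
    unfold cv
    refine sum_pos' (fun i _ => mul_nonneg (hp i) (hv _)) ⟨0, mem_range.2 (Nat.succ_pos x), ?_⟩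
    rw [Nat.sub_zero]
    exact mul_pos hp0 hx
  unfold Lin
  split_ifs with h
  · exact sum_pos' (fun n _ => cv_nonneg hp hv n) ⟨x, mem_range.2 (by omega), h1⟩
  · have : a + (x - a) = x := by omega
    rwa [this]

end one

variable {N : ℕ} {p : ℕ → ℕ → ℝ} {a : ℕ → ℕ}

/-- a nonnegative cyclic chain starts with a positive entry -/
lemma chain_pos (hp : ∀ t n, 0 ≤ p t n) (hp0 : ∀ t, 0 < p t 0) (hA : 0 < ∑ t ∈ range N, a t)
    {V : ℕ → ℕ → ℝ} (hV : ∀ t n, 0 ≤ V t n) (hch : ∀ t < N, ∀ k, V t k = Lin (p t) (a t) (V (t + 1)) k)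
    (hcyc : V N = V 0) {x : ℕ} (hx : 0 < V 0 x) : 0 < V 0 0 := by
  have key : ∀ y, 0 < V 0 y → 0 < V 0 (y - ∑ t ∈ range N, a t) := by
    intro y hy
    have h1 : ∀ d ≤ N, 0 < V (N - d) (y - ∑ t ∈ Ico (N - d) N, a t) := by
      intro d
      induction d with
      | zero =>
        intro _
        rw [Nat.sub_zero, Ico_self, sum_empty, Nat.sub_zero, hcyc]
        exact hy
      | succ d ih =>
        intro hd
        have h2 := ih (by omega)
        have h3 : N - d = N - (d + 1) + 1 := by omega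
        rw [h3] at h2
        rw [hch (N - (d + 1)) (by omega)]
        have h4 := Lin_down (a := a (N - (d + 1))) (hp (N - (d + 1))) (hp0 _) (hV _) h2
        have h5 : y - ∑ t ∈ Ico (N - (d + 1)) N, a t =
            y - ∑ t ∈ Ico (N - (d + 1) + 1) N, a t - a (N - (d + 1)) := by
          rw [sum_eq_sum_Ico_succ_bot (by omega : N - (d + 1) < N)]
          omega
        rw [h5]
        exact h4
    have h2 := h1 N le_rfl
    rwa [Nat.sub_self, ← range_eq_Ico] at h2
  induction x using Nat.strong_induction_on with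
  | _ x ih =>
    rcases Nat.eq_zero_or_pos x with rfl | h
    · exact hx
    · exact ih _ (by omega) (key x hx)

/-- **Uniqueness for real cyclic chains.** -/
theorem chain_zero (hp : ∀ t n, 0 ≤ p t n) (hp1 : ∀ t, HasSum (p t) 1) (hp0 : ∀ t, 0 < p t 0)
    (hA : 0 < ∑ t ∈ range N, a t) {U : ℕ → ℕ → ℝ}
    (hch : ∀ t < N, ∀ k, U t k = Lin (p t) (a t) (U (t + 1)) k)
    (hcyc : U N = U 0) (hs : Summable fun n => |U 0 n|) (h0 : ∑' n, U 0 n = 0) : ∀ n, U 0 n = 0 := by
  have hfun : ∀ t < N, U t = Lin (p t) (a t) (U (t + 1)) := fun t ht => funext (hch t ht)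
  have hsum : ∀ d ≤ N, Summable fun n => |U (N - d) n| := by
    intro d
    induction d with
    | zero =>
      intro _
      rw [Nat.sub_zero, hcyc]
      exact hs
    | succ d ih =>
      intro hd
      have h2 := ih (by omega)
      have h3 : N - d = N - (d + 1) + 1 := by omega
      rw [h3] at h2
      have h4 := (Lin_hasSum (a := a (N - (d + 1))) (hp (N - (d + 1))) (hp1 _) h2).1
      rw [← hfun _ (by omega)] at h4
      exact h4
  have hsum' : ∀ t ≤ N, Summable fun n => |U t n| := by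
    intro t ht
    have := hsum (N - t) (by omega)
    rwa [Nat.sub_sub_self ht] at this
  have habs : ∀ t ≤ N, Summable fun n => |(fun k => |U t k|) n| := fun t ht => by
    simpa only [abs_abs] using hsum' t ht
  -- the masses
  have hle : ∀ t < N, ∑' n, |U t n| ≤ ∑' n, |U (t + 1) n| := by
    intro t ht
    have h1 := (Lin_hasSum (a := a t) (hp t) (hp1 t) (habs (t + 1) (by omega))).2
    rw [← h1.tsum_eq]
    refine (hsum' t ht.le).tsum_le_tsum (fun n => ?_) h1.summable
    rw [hch t ht]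
    exact Lin_abs (hp t) _ _
  have hmono : ∀ t ≤ N, ∑' n, |U 0 n| ≤ ∑' n, |U t n| := by
    intro t
    induction t with
    | zero => intro _; exact le_rfl
    | succ t ih => intro ht; exact (ih (by omega)).trans (hle t (by omega))
  have hmono' : ∀ d ≤ N, ∑' n, |U (N - d) n| ≤ ∑' n, |U N n| := by
    intro d
    induction d with
    | zero => intro _; exact le_rfl
    | succ d ih =>
      intro hd
      refine (hle _ (by omega)).trans ?_
      have h3 : N - (d + 1) + 1 = N - d := by omega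
      rw [h3]
      exact ih (by omega)
  have heq : ∀ t ≤ N, ∑' n, |U t n| = ∑' n, |U 0 n| := by
    intro t ht
    refine le_antisymm ?_ (hmono t ht)
    have := hmono' (N - t) (by omega)
    rwa [Nat.sub_sub_self ht, hcyc] at this
  have habs2 : ∀ t < N, ∀ k, |U t k| = Lin (p t) (a t) (fun k => |U (t + 1) k|) k := by
    intro t ht
    have h1 := (Lin_hasSum (a := a t) (hp t) (hp1 t) (habs (t + 1) (by omega))).2
    rw [heq (t + 1) (by omega), ← heq t ht.le] at h1
    have h2 : HasSum (fun k => Lin (p t) (a t) (fun k => |U (t + 1) k|) k - |U t k|) 0 := by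
      have := h1.sub (hsum' t ht.le).hasSum
      rwa [sub_self] at this
    have h3 : ∀ k, 0 ≤ Lin (p t) (a t) (fun k => |U (t + 1) k|) k - |U t k| := by
      intro k
      rw [hch t ht k]
      exact sub_nonneg.2 (Lin_abs (hp t) _ _)
    have h4 := (hasSum_zero_iff_of_nonneg h3).1 h2
    intro k
    have := congrFun h4 k
    simp only [Pi.zero_apply] at this
    linarith
  -- positive and negative parts
  have hpart : ∀ e : ℝ, ∀ t < N, ∀ k, (fun t k => |U t k| + e * U t k) t k =
      Lin (p t) (a t) ((fun t k => |U t k| + e * U t k) (t + 1)) k := by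
    intro e t ht k
    show |U t k| + e * U t k = Lin (p t) (a t) (fun k => |U (t + 1) k| + e * U (t + 1) k) k
    rw [Lin_add, Lin_smul, ← habs2 t ht k, ← hch t ht k]
  have hn1 : ∀ t k, 0 ≤ (fun t k => |U t k| + 1 * U t k) t k := fun t k => by
    show 0 ≤ |U t k| + 1 * U t k
    linarith [neg_abs_le (U t k)]
  have hn2 : ∀ t k, 0 ≤ (fun t k => |U t k| + (-1) * U t k) t k := fun t k => by
    show 0 ≤ |U t k| + (-1) * U t k
    linarith [le_abs_self (U t k)]
  have hz1 : (∃ x, 0 < U 0 x) → 0 < U 0 0 := by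
    rintro ⟨x, hx⟩
    have h1 := chain_pos (p := p) (a := a) (N := N) hp hp0 hA hn1 (hpart 1)
      (by simp only [hcyc]) (x := x) (by
        show 0 < |U 0 x| + 1 * U 0 x
        rw [abs_of_pos hx]
        linarith)
    have h2 : 0 < |U 0 0| + 1 * U 0 0 := h1
    by_contra hcon
    push Not at hcon
    rw [abs_of_nonpos hcon] at h2
    linarith
  have hz2 : (∃ x, U 0 x < 0) → U 0 0 < 0 := by
    rintro ⟨x, hx⟩
    have h1 := chain_pos (p := p) (a := a) (N := N) hp hp0 hA hn2 (hpart (-1))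
      (by simp only [hcyc]) (x := x) (by
        show 0 < |U 0 x| + (-1) * U 0 x
        rw [abs_of_neg hx]
        linarith)
    have h2 : 0 < |U 0 0| + (-1) * U 0 0 := h1
    by_contra hcon
    push Not at hcon
    rw [abs_of_nonneg hcon] at h2
    linarith
  have hs' : Summable (U 0) := by
    refine Summable.of_norm ?_
    exact hs
  intro n
  by_contra hn
  rcases lt_or_gt_of_ne hn with h | h
  · have h1 := hz2 ⟨n, h⟩
    have h2 : ∀ x, U 0 x ≤ 0 := by
      intro x
      by_contra hx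
      push Not at hx
      linarith [hz1 ⟨x, hx⟩]
    have h3 := (hasSum_zero_iff_of_nonneg (f := fun x => -U 0 x) fun x => by
      have := h2 x
      show 0 ≤ -U 0 x
      linarith).1 (by
        have := hs'.hasSum.neg
        rwa [h0, neg_zero] at this)
    have := congrFun h3 n
    simp only [Pi.zero_apply] at this
    linarith
  · have h1 := hz1 ⟨n, h⟩
    have h2 : ∀ x, 0 ≤ U 0 x := by
      intro x
      by_contra hx
      push Not at hx
      linarith [hz2 ⟨x, hx⟩]
    have h3 := (hasSum_zero_iff_of_nonneg h2).1 (by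
      have := hs'.hasSum
      rwa [h0] at this)
    have := congrFun h3 n
    simp only [Pi.zero_apply] at this
    linarith

/-- The complex Lindley operator. -/
noncomputable def LinC (p : ℕ → ℝ) (a : ℕ) (v : ℕ → ℂ) (k : ℕ) : ℂ :=
  if k = 0 then ∑ n ∈ range (a + 1), ∑ i ∈ range (n + 1), (p i : ℂ) * v (n - i)
  else ∑ i ∈ range (a + k + 1), (p i : ℂ) * v (a + k - i)

lemma LinC_re (p : ℕ → ℝ) (a : ℕ) (v : ℕ → ℂ) (k : ℕ) :
    (LinC p a v k).re = Lin p a (fun n => (v n).re) k := by
  unfold LinC Lin cv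
  split_ifs
  · simp only [Complex.re_sum, Complex.re_ofReal_mul]
  · simp only [Complex.re_sum, Complex.re_ofReal_mul]

lemma LinC_im (p : ℕ → ℝ) (a : ℕ) (v : ℕ → ℂ) (k : ℕ) :
    (LinC p a v k).im = Lin p a (fun n => (v n).im) k := by
  unfold LinC Lin cv
  split_ifs
  · simp only [Complex.im_sum, Complex.im_ofReal_mul]
  · simp only [Complex.im_sum, Complex.im_ofReal_mul]

/-- **Uniqueness for complex cyclic chains.** -/
theorem chain_zeroC (hp : ∀ t n, 0 ≤ p t n) (hp1 : ∀ t, HasSum (p t) 1) (hp0 : ∀ t, 0 < p t 0)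
    (hA : 0 < ∑ t ∈ range N, a t) {U : ℕ → ℕ → ℂ}
    (hch : ∀ t < N, ∀ k, U t k = LinC (p t) (a t) (U (t + 1)) k)
    (hcyc : U N = U 0) (hs : Summable fun n => ‖U 0 n‖) (h0 : ∑' n, U 0 n = 0) :
    ∀ t ≤ N, ∀ n, U t n = 0 := by
  have hre : ∀ n, (U 0 n).re = 0 := by
    refine chain_zero (U := fun t n => (U t n).re) (p := p) (a := a) (N := N) hp hp1 hp0 hA
      (fun t ht k => ?_) ?_ ?_ ?_
    · show (U t k).re = _
      rw [hch t ht k, LinC_re]
    · simp only [hcyc]
    · exact Summable.of_nonneg_of_le (fun n => abs_nonneg _) (fun n => Complex.abs_re_le_norm _) hs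
    · have := congrArg Complex.re h0
      rw [Complex.re_tsum hs.of_norm, Complex.zero_re] at this
      exact this
  have him : ∀ n, (U 0 n).im = 0 := by
    refine chain_zero (U := fun t n => (U t n).im) (p := p) (a := a) (N := N) hp hp1 hp0 hA
      (fun t ht k => ?_) ?_ ?_ ?_
    · show (U t k).im = _
      rw [hch t ht k, LinC_im]
    · simp only [hcyc]
    · exact Summable.of_nonneg_of_le (fun n => abs_nonneg _) (fun n => Complex.abs_im_le_norm _) hs
    · have := congrArg Complex.im h0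
      rw [Complex.im_tsum hs.of_norm, Complex.zero_im] at this
      exact this
  have hz : ∀ n, U 0 n = 0 := fun n => Complex.ext (hre n) (him n)
  have hd : ∀ d ≤ N, ∀ n, U (N - d) n = 0 := by
    intro d
    induction d with
    | zero =>
      intro _ n
      rw [Nat.sub_zero, hcyc]
      exact hz n
    | succ d ih =>
      intro hd n
      have h2 := ih (by omega)
      have h3 : N - d = N - (d + 1) + 1 := by omega
      rw [h3] at h2
      rw [hch _ (by omega)]
      unfold LinC
      simp only [h2, mul_zero, sum_const_zero, ite_self]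
  intro t ht n
  have := hd (N - t) (by omega) n
  rwa [Nat.sub_sub_self ht] at this

end Q194.RW
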