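import Pool.Agent.Q194.RW.Disc
import Pool.Agent.Q194.RW.Fix

/-!
# Zeros on the unit circle, and absolute summability of the quotient
-/

namespace Q194.RW

open Finset Filter Topology

/-- the generating function of a real sequence -/
noncomputable def gf (p : ℕ → ℝ) : PowerSeries ℂ := PowerSeries.mk fun n => (p n : ℂ)

lemma coeff_gf (p : ℕ → ℝ) (n : ℕ) : PowerSeries.coeff n (gf p) = (p n : ℂ) := PowerSeries.coeff_mk _ _

lemma coeff_gf_mul (p v : ℕ → ℝ) (n : ℕ) :
    PowerSeries.coeff n (gf p * gf v) = ((cv p v n : ℝ) : ℂ) := by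
  rw [PowerSeries.coeff_mul, Finset.Nat.sum_antidiagonal_eq_sum_range_succ_mk, cv, Complex.ofReal_sum]
  refine sum_congr rfl fun i _ => ?_
  rw [coeff_gf, coeff_gf, Complex.ofReal_mul]

/-- the polynomial `V (P - X^A)` -/
noncomputable def Lp (p v : ℕ → ℝ) (A : ℕ) : Polynomial ℂ :=
  ∑ n ∈ range A, Polynomial.C ((cv p v n : ℝ) : ℂ) * (Polynomial.X ^ n - Polynomial.X ^ A)

section

variable {p v : ℕ → ℝ} {A : ℕ}

lemma Lp_eval (s : ℂ) : (Lp p v A).eval s = ∑ n ∈ range A, (cv p v n : ℂ) * (s ^ n - s ^ A) := by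
  unfold Lp
  rw [Polynomial.eval_finsetSum]
  refine sum_congr rfl fun n _ => ?_
  simp

lemma Lp_deriv (s : ℂ) : (Lp p v A).derivative.eval s =
    ∑ n ∈ range A, (cv p v n : ℂ) * ((n : ℂ) * s ^ (n - 1) - (A : ℂ) * s ^ (A - 1)) := by
  unfold Lp
  rw [Polynomial.derivative_sum, Polynomial.eval_finsetSum]
  refine sum_congr rfl fun n _ => ?_
  simp [Polynomial.derivative_X_pow]

lemma Lp_degree (hA : 0 < A) : (Lp p v A).natDegree ≤ A := by
  unfold Lp
  refine Polynomial.natDegree_sum_le_of_forall_le _ _ fun n hn => ?_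
  refine (Polynomial.natDegree_C_mul_le _ _).trans ?_
  refine (Polynomial.natDegree_sub_le _ _).trans ?_
  rw [Polynomial.natDegree_X_pow, Polynomial.natDegree_X_pow]
  exact max_le (mem_range.1 hn).le le_rfl

/-- `V (P - X^A)` is a polynomial -/
lemma gf_mul_eq (hfix : ∀ k, Lin p A v k = v k) :
    gf v * (gf p - PowerSeries.X ^ A) = ((Lp p v A : Polynomial ℂ) : PowerSeries ℂ) := by
  ext n
  rw [mul_sub, map_sub, mul_comm (gf v) (gf p), coeff_gf_mul, mul_comm (gf v) (PowerSeries.X ^ A),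
    PowerSeries.coeff_X_pow_mul', Polynomial.coeff_coe]
  have h1 : (Lp p v A).coeff n = ∑ k ∈ range A, (cv p v k : ℂ) *
      ((if n = k then 1 else 0) - (if n = A then 1 else 0)) := by
    unfold Lp
    rw [Polynomial.finsetSum_coeff]
    refine sum_congr rfl fun k _ => ?_
    rw [Polynomial.coeff_C_mul, Polynomial.coeff_sub, Polynomial.coeff_X_pow, Polynomial.coeff_X_pow]
  rw [h1]
  rcases lt_trichotomy n A with h | h | h
  · rw [if_neg (not_le.2 h), sub_zero]
    rw [sum_eq_single n]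
    · rw [if_pos rfl, if_neg h.ne]; ring
    · intro k _ hk
      rw [if_neg (Ne.symm hk), if_neg h.ne]; ring
    · intro hk
      exact absurd (mem_range.2 h) hk
  · subst h
    rw [if_pos le_rfl, Nat.sub_self, coeff_gf, ← hfix 0, Lin, if_pos rfl, sum_range_succ]
    have h2 : ∑ k ∈ range n, (cv p v k : ℂ) * ((if n = k then 1 else 0) - (if n = n then 1 else 0)) =
        ∑ k ∈ range n, -(cv p v k : ℂ) := by
      refine sum_congr rfl fun k hk => ?_
      rw [if_neg (mem_range.1 hk).ne', if_pos rfl]; ring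
    rw [h2, sum_neg_distrib]
    push_cast
    ring
  · rw [if_pos h.le, coeff_gf, ← hfix (n - A), Lin, if_neg (by omega)]
    have h3 : A + (n - A) = n := by omega
    rw [h3, sub_self, sum_eq_zero]
    intro k hk
    have := mem_range.1 hk
    rw [if_neg (by omega), if_neg h.ne']; ring

variable (hp : ∀ n, 0 ≤ p n) (hp1 : HasSum p 1) (hp0 : 0 < p 0) (hA : 0 < A) (hv : ∀ n, 0 ≤ v n)
  (hvs : Summable v) (hv0 : ∃ n, v n ≠ 0) (hfix : ∀ k, Lin p A v k = v k)

include hp hp0 hA hv hv0 hfix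

lemma v_pos : 0 < v 0 := by
  obtain ⟨x, hx⟩ := hv0
  refine chain_pos (N := 1) (p := fun _ => p) (a := fun _ => A) (V := fun _ => v) (fun _ => hp)
    (fun _ => hp0) (by simpa using hA) (fun _ => hv) (fun t _ k => (hfix k).symm) rfl (x := x)
    (lt_of_le_of_ne (hv x) (Ne.symm hx))

lemma cv_zero_pos : 0 < cv p v 0 := by
  unfold cv
  rw [zero_add, sum_range_one, Nat.sub_zero]
  exact mul_pos hp0 (v_pos hp hp0 hA hv hv0 hfix)

lemma Lp_ne : Lp p v A ≠ 0 := by
  intro h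
  have h1 := congrArg (fun q : Polynomial ℂ => q.eval 0) h
  simp only [Lp_eval, Polynomial.eval_zero] at h1
  rw [sum_eq_single 0] at h1
  · rw [pow_zero, zero_pow hA.ne', sub_zero, mul_one] at h1
    have := cv_zero_pos hp hp0 hA hv hv0 hfix
    exact this.ne' (by exact_mod_cast h1)
  · intro n hn hn0
    rw [zero_pow hn0, zero_pow hA.ne', sub_zero, mul_zero]
  · intro h2
    exact absurd (mem_range.2 hA) h2

/-- **Zeros on the unit circle.** -/
lemma root_bd {β : ℂ} (hβ : ‖β‖ = 1) (h : (Lp p v A).eval β = 0) :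
    β ^ A = 1 ∧ (∀ n, p n ≠ 0 → β ^ n = 1) ∧ (Lp p v A).derivative.eval β ≠ 0 := by
  have hβ0 : β ≠ 0 := by
    rintro rfl
    rw [norm_zero] at hβ
    exact zero_ne_one hβ
  have hcn : ∀ n, 0 ≤ cv p v n := cv_nonneg hp hv
  -- each term vanishes
  have h1 : ∀ n ∈ range A, cv p v n ≠ 0 → β ^ n = β ^ A := by
    have h2 : ∑ n ∈ range A, cv p v n * (1 - (β ^ n * (β ^ A)⁻¹).re) = 0 := by
      have h3 : ∑ n ∈ range A, (cv p v n : ℂ) * (1 - β ^ n * (β ^ A)⁻¹) = 0 := by
        have h4 : ∑ n ∈ range A, (cv p v n : ℂ) * (1 - β ^ n * (β ^ A)⁻¹) =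
            -(β ^ A)⁻¹ * ∑ n ∈ range A, (cv p v n : ℂ) * (β ^ n - β ^ A) := by
          rw [mul_sum]
          refine sum_congr rfl fun n _ => ?_
          have : β ^ A ≠ 0 := pow_ne_zero _ hβ0
          field_simp
          ring
        rw [h4, ← Lp_eval, h, mul_zero]
      have h5 := congrArg Complex.re h3
      rw [Complex.re_sum, Complex.zero_re] at h5
      rw [← h5]
      refine sum_congr rfl fun n _ => ?_
      rw [Complex.re_ofReal_mul, Complex.sub_re, Complex.one_re]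
    have hn1 : ∀ n, ‖β ^ n * (β ^ A)⁻¹‖ = 1 := by
      intro n
      rw [norm_mul, norm_inv, norm_pow, norm_pow, hβ, one_pow, one_pow, inv_one, mul_one]
    have h6 : ∀ n ∈ range A, 0 ≤ cv p v n * (1 - (β ^ n * (β ^ A)⁻¹).re) := by
      intro n _
      refine mul_nonneg (hcn n) (sub_nonneg.2 ?_)
      rw [← hn1 n]
      exact Complex.re_le_norm _
    intro n hn hne
    have h7 := (sum_eq_zero_iff_of_nonneg h6).1 h2 n hn
    have h8 : (β ^ n * (β ^ A)⁻¹).re = 1 := by
      rcases mul_eq_zero.1 h7 with h9 | h9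
      · exact absurd h9 hne
      · linarith
    have h9 : β ^ n * (β ^ A)⁻¹ = 1 := by
      have h10 := Complex.re_eq_norm.1 (h8.trans (hn1 n).symm)
      exact Complex.ext (by rw [h8, Complex.one_re]) (by
        rw [Complex.one_im]; exact ((Complex.le_def.1 h10).2).symm)
    rw [mul_inv_eq_one₀ (pow_ne_zero _ hβ0)] at h9
    exact h9
  have hA1 : β ^ A = 1 := by
    rw [← h1 0 (mem_range.2 hA) (cv_zero_pos hp hp0 hA hv hv0 hfix).ne', pow_zero]
  have hcvA : ∀ n, A < n → v (n - A) = cv p v n := by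
    intro n hn
    rw [← hfix (n - A), Lin, if_neg (by omega)]
    congr 1
    omega
  have hpow : ∀ n, A ≤ n → β ^ n = β ^ (n - A) := by
    intro n hn
    have h2 : n = A + (n - A) := by omega
    conv_lhs => rw [h2, pow_add, hA1, one_mul]
  -- the support of `v`
  have hsv : ∀ x, v x ≠ 0 → β ^ x = 1 := by
    intro x
    induction x using Nat.strong_induction_on with
    | _ x ih =>
      intro hx
      have h2 : 0 < cv p v x := by
        unfold cv
        refine sum_pos' (fun i _ => mul_nonneg (hp i) (hv _)) ⟨0, mem_range.2 (Nat.succ_pos x), ?_⟩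
        rw [Nat.sub_zero]
        exact mul_pos hp0 (lt_of_le_of_ne (hv x) (Ne.symm hx))
      rcases lt_trichotomy x A with h3 | h3 | h3
      · rw [h1 x (mem_range.2 h3) h2.ne', hA1]
      · rw [h3, hA1]
      · rw [hpow x h3.le]
        refine ih (x - A) (by omega) ?_
        rw [hcvA x h3]
        exact h2.ne'
  have hsp : ∀ n, p n ≠ 0 → β ^ n = 1 := by
    intro n hn
    have h2 : 0 < cv p v n := by
      unfold cv
      refine sum_pos' (fun i _ => mul_nonneg (hp i) (hv _)) ⟨n, mem_range.2 (Nat.lt_succ_self n), ?_⟩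
      rw [Nat.sub_self]
      exact mul_pos (lt_of_le_of_ne (hp n) (Ne.symm hn)) (v_pos hp hp0 hA hv hv0 hfix)
    rcases lt_trichotomy n A with h3 | h3 | h3
    · rw [h1 n (mem_range.2 h3) h2.ne', hA1]
    · rw [h3, hA1]
    · rw [hpow n h3.le]
      refine hsv (n - A) ?_
      rw [hcvA n h3]
      exact h2.ne'
  refine ⟨hA1, hsp, fun hd => ?_⟩
  rw [Lp_deriv] at hd
  have h2 : ∑ n ∈ range A, (cv p v n : ℂ) * ((n : ℂ) - (A : ℂ)) = 0 := by
    have h3 : β * ∑ n ∈ range A, (cv p v n : ℂ) * ((n : ℂ) * β ^ (n - 1) - (A : ℂ) * β ^ (A - 1)) =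
        ∑ n ∈ range A, (cv p v n : ℂ) * ((n : ℂ) - (A : ℂ)) := by
      rw [mul_sum]
      refine sum_congr rfl fun n hn => ?_
      have e1 : β * β ^ (A - 1) = 1 := by
        rw [← pow_succ', Nat.sub_add_cancel hA, hA1]
      rcases eq_or_ne (cv p v n) 0 with h4 | h4
      · rw [h4]; simp
      have h5 := h1 n hn h4
      have e2 : (n : ℂ) * (β * β ^ (n - 1)) = n := by
        rcases Nat.eq_zero_or_pos n with h6 | h6
        · rw [h6]; simp
        · rw [← pow_succ', Nat.sub_add_cancel h6, h5, hA1, mul_one]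
      calc β * ((cv p v n : ℂ) * ((n : ℂ) * β ^ (n - 1) - (A : ℂ) * β ^ (A - 1)))
          = (cv p v n : ℂ) * ((n : ℂ) * (β * β ^ (n - 1)) - (A : ℂ) * (β * β ^ (A - 1))) := by ring
        _ = _ := by rw [e1, e2, mul_one]
    rw [← h3, hd, mul_zero]
  have h3 : ∑ n ∈ range A, cv p v n * ((A : ℝ) - n) = 0 := by
    have h4 : ((∑ n ∈ range A, cv p v n * ((A : ℝ) - n) : ℝ) : ℂ) = 0 := by
      rw [← neg_eq_zero, ← h2]
      push_cast
      rw [← sum_neg_distrib]
      exact sum_congr rfl fun n _ => by ring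
    exact_mod_cast h4
  have h4 : 0 < ∑ n ∈ range A, cv p v n * ((A : ℝ) - n) := by
    refine sum_pos' (fun n hn => mul_nonneg (hcn n) ?_) ⟨0, mem_range.2 hA, ?_⟩
    · have : (n : ℝ) ≤ A := by exact_mod_cast (mem_range.1 hn).le
      linarith
    · have h5 : (0 : ℝ) < A := by exact_mod_cast hA
      rw [Nat.cast_zero, sub_zero]
      exact mul_pos (cv_zero_pos hp hp0 hA hv hv0 hfix) h5
  linarith

end

lemma gf_L1 {p : ℕ → ℝ} (hp : ∀ n, 0 ≤ p n) (hs : Summable p) : L1 (gf p) := by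
  refine hs.congr fun n => ?_
  rw [coeff_gf, Complex.norm_real, Real.norm_eq_abs, abs_of_nonneg (hp n)]

lemma gf_W1 {p : ℕ → ℝ} (hp : ∀ n, 0 ≤ p n) (hs : Summable p)
    (hm : Summable fun n : ℕ => (n : ℝ) * p n) : W1 (gf p) := by
  refine (hm.add hs).congr fun n => ?_
  rw [coeff_gf, Complex.norm_real, Real.norm_eq_abs, abs_of_nonneg (hp n)]
  ring

/-- **The quotient is absolutely summable with sum zero.** -/
theorem quot_L1 {p : ℕ → ℝ} {A : ℕ} (hp : ∀ n, 0 ≤ p n) (hp1 : HasSum p 1) (hp0 : 0 < p 0)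
    (hA : 0 < A) (hpm : Summable fun n : ℕ => (n : ℝ) * p n) (hneg : ∑' n : ℕ, (n : ℝ) * p n < A)
    {U Ψ : PowerSeries ℂ} (hU : (gf p - PowerSeries.X ^ A) * U = (PowerSeries.X - PowerSeries.C 1) * Ψ)
    (hΨ : W1 Ψ) (hΨ1 : ev Ψ 1 = 0)
    (hbd : ∀ β : ℂ, ‖β‖ = 1 → β ≠ 1 → ev (gf p - PowerSeries.X ^ A) β = 0 → ev Ψ β = 0)
    (hint : ∀ α : ℂ, α ≠ 0 → ‖α‖ < 1 → analyticOrderAt (ev (gf p - PowerSeries.X ^ A)) α ≤
      analyticOrderAt (ev Ψ) α) : L1 U ∧ ev U 1 = 0 := by
  classical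
  obtain ⟨v, hv, hvs, hv0, hfix⟩ := exists_stat hp hp1 hpm hneg
  have hVQ := gf_mul_eq (p := p) (v := v) (A := A) hfix
  set Q : PowerSeries ℂ := gf p - PowerSeries.X ^ A with hQ
  have hXA : (PowerSeries.X ^ A : PowerSeries ℂ) = ((Polynomial.X ^ A : Polynomial ℂ) : PowerSeries ℂ) := by
    rw [Polynomial.coe_pow, Polynomial.coe_X]
  have hQL : L1 Q := by
    rw [hQ, sub_eq_add_neg, hXA]
    exact (gf_L1 hp hp1.summable).add (L1.poly _).neg
  have hVL : L1 (gf v) := gf_L1 hv hvs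
  have hLU : ((Lp p v A : Polynomial ℂ) : PowerSeries ℂ) * U =
      (PowerSeries.X - PowerSeries.C 1) * Ψ * gf v := by
    rw [← hVQ, mul_assoc, hU]
    ring
  have hLne : Lp p v A ≠ 0 := Lp_ne hp hp0 hA hv hv0 hfix
  have hconvΨ : Conv Ψ := hΨ.l1.conv
  have hconvR : Conv ((PowerSeries.X - PowerSeries.C 1) * Ψ * gf v) :=
    ((conv_XC 1).mul hconvΨ).mul hVL.conv
  have hconvU : Conv U := by
    refine conv_div (Lp p v A) hLne hconvR hLU fun α hα => ?_
    rw [← hVQ, order_mul hVL.conv hQL.conv hα,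
      order_mul ((conv_XC 1).mul hconvΨ) hVL.conv hα, order_mul (conv_XC 1) hconvΨ hα]
    rw [add_comm]
    refine add_le_add ?_ le_rfl
    by_cases h0 : α = 0
    · subst h0
      have h1 : analyticOrderAt (ev Q) 0 = 0 := by
        rw [(ev_analytic hQL.conv hα).analyticOrderAt_eq_zero]
        unfold ev
        rw [tsum_eq_single 0 fun n hn => by rw [zero_pow hn, mul_zero]]
        rw [pow_zero, mul_one, hQ, map_sub, coeff_gf, PowerSeries.coeff_X_pow, if_neg hA.ne, sub_zero]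
        exact_mod_cast hp0.ne'
      rw [h1]
      positivity
    · exact (hint α h0 hα).trans le_add_self
  -- the boundary roots
  set R : Finset ℂ := (Lp p v A).roots.toFinset.filter fun β => ‖β‖ = 1 with hR
  have hRm : ∀ β, β ∈ R ↔ (Lp p v A).eval β = 0 ∧ ‖β‖ = 1 := by
    intro β
    rw [hR, mem_filter, Multiset.mem_toFinset, Polynomial.mem_roots hLne, Polynomial.IsRoot.def]
  have h1R : (1 : ℂ) ∈ R := by
    rw [hRm, Lp_eval]
    simp
  set Z : Finset ℂ := R.erase 1 with hZ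
  have hQβ : ∀ β ∈ R, ev Q β = 0 := by
    intro β hβ
    obtain ⟨h1, h2⟩ := (hRm β).1 hβ
    obtain ⟨h3, h4, -⟩ := root_bd hp hp0 hA hv hv0 hfix h2 h1
    have h5 : ev Q β = ∑' n, PowerSeries.coeff n (gf p) * β ^ n - β ^ A := by
      have h6 : ev (PowerSeries.X ^ A : PowerSeries ℂ) β = β ^ A := by
        rw [hXA, ev_poly]
        simp
      rw [← h6]
      unfold ev
      rw [← (ev_summable (gf_L1 hp hp1.summable) h2.le).of_norm.tsum_sub]
      · refine tsum_congr fun n => ?_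
        rw [hQ, map_sub, sub_mul]
      · rw [hXA]
        exact (ev_summable (L1.poly _) h2.le).of_norm
    rw [h5, h3]
    have h6 : ∀ n, PowerSeries.coeff n (gf p) * β ^ n = (p n : ℂ) := by
      intro n
      rw [coeff_gf]
      by_cases h7 : p n = 0
      · rw [h7]; simp
      · rw [h4 n h7, mul_one]
    simp only [h6]
    rw [← Complex.ofReal_tsum, hp1.tsum_eq, Complex.ofReal_one, sub_self]
  obtain ⟨g, hg, hΨg⟩ := div_bds hΨ.w hΨ.l1 Z fun β hβ => by
    rw [hZ, mem_erase] at hβ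
    have h2 := ((hRm β).1 hβ.2).2
    exact ⟨h2, hbd β h2 hβ.1 (hQβ β hβ.2)⟩
  -- factor the polynomial
  have hdvd : (∏ β ∈ R, (Polynomial.X - Polynomial.C β)) ∣ Lp p v A := by
    refine Finset.prod_dvd_of_coprime ?_ ?_
    · intro β _ γ _ hβγ
      exact Polynomial.isCoprime_X_sub_C_of_isUnit_sub (isUnit_iff_ne_zero.2 (sub_ne_zero.2 hβγ))
    · intro β hβ
      exact Polynomial.dvd_iff_isRoot.2 ((hRm β).1 hβ).1
  obtain ⟨E, hE⟩ := hdvd
  set B : Polynomial ℂ := ∏ β ∈ Z, (Polynomial.X - Polynomial.C β) with hB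
  have hRB : (∏ β ∈ R, (Polynomial.X - Polynomial.C β)) = (Polynomial.X - Polynomial.C 1) * B := by
    rw [hB, hZ, mul_prod_erase R (fun β => (Polynomial.X - Polynomial.C β : Polynomial ℂ)) h1R]
  have hE0 : E ≠ 0 := by
    rintro rfl
    rw [mul_zero] at hE
    exact hLne hE
  have hEr : ∀ β, E.IsRoot β → ‖β‖ ≠ 1 := by
    intro β hβ h1
    have h2 : (Lp p v A).eval β = 0 := by
      rw [hE, Polynomial.eval_mul, hβ.eq_zero, mul_zero]
    have h3 : β ∈ R := (hRm β).2 ⟨h2, h1⟩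
    have h4 := (root_bd hp hp0 hA hv hv0 hfix h1 h2).2.2
    apply h4
    rw [hE, Polynomial.derivative_mul, Polynomial.eval_add, Polynomial.eval_mul, Polynomial.eval_mul,
      hβ.eq_zero, mul_zero, zero_add, Polynomial.eval_prod, prod_eq_zero h3 (by simp), zero_mul]
  have hB0 : B ≠ 0 := by
    rw [hB]
    exact prod_ne_zero_iff.2 fun β _ => Polynomial.X_sub_C_ne_zero β
  have hUE : (E : PowerSeries ℂ) * U = g * gf v := by
    have h1 : (B : PowerSeries ℂ) ≠ 0 := by
      rw [Ne, Polynomial.coe_eq_zero_iff]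
      exact hB0
    refine mul_left_cancel₀ (mul_ne_zero (X_sub_C_ne 1) h1) ?_
    rw [hE, hRB, Polynomial.coe_mul, Polynomial.coe_mul, coe_XC, hΨg] at hLU
    calc (PowerSeries.X - PowerSeries.C 1) * (B : PowerSeries ℂ) * ((E : PowerSeries ℂ) * U)
        = (PowerSeries.X - PowerSeries.C 1) * (B : PowerSeries ℂ) * (E : PowerSeries ℂ) * U := by ring
      _ = (PowerSeries.X - PowerSeries.C 1) * ((B : PowerSeries ℂ) * g) * gf v := hLU
      _ = _ := by ring
  have hUL : L1 U := by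
    refine div_poly hconvU E hE0 hEr ?_
    rw [hUE]
    exact hg.mul hVL
  refine ⟨hUL, ?_⟩
  have hg1 : ev g 1 = 0 := by
    have h1 : ev Ψ 1 = ev (B : PowerSeries ℂ) 1 * ev g 1 := by
      rw [hΨg, ev_mul (L1.poly _) hg (by simp)]
    rw [hΨ1, ev_poly] at h1
    have h2 : B.eval 1 ≠ 0 := by
      rw [hB, Polynomial.eval_prod]
      refine prod_ne_zero_iff.2 fun β hβ => ?_
      rw [hZ, mem_erase] at hβ
      rw [Polynomial.eval_sub, Polynomial.eval_X, Polynomial.eval_C]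
      exact sub_ne_zero.2 (Ne.symm hβ.1)
    rcases mul_eq_zero.1 h1.symm with h3 | h3
    · exact absurd h3 h2
    · exact h3
  have h1 : ev (E : PowerSeries ℂ) 1 * ev U 1 = 0 := by
    rw [← ev_mul (L1.poly _) hUL (by simp), hUE, ev_mul hg hVL (by simp), hg1, zero_mul]
  rw [ev_poly] at h1
  rcases mul_eq_zero.1 h1 with h2 | h2
  · exact absurd (by simp) (hEr 1 h2)
  · exact h2

end Q194.RW
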