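import Pool.Agent.Q194.RW.Bd

/-!
# The core theorem in terms of power series
-/

namespace Q194.RW

open Finset Filter Topology

/-- a probability law on `ℕ` with a finite mean `m` and an atom at zero -/
structure Law (p : ℕ → ℝ) (m : ℝ) : Prop where
  nn : ∀ n, 0 ≤ p n
  one : HasSum p 1
  zero : 0 < p 0
  mean : HasSum (fun n : ℕ => (n : ℝ) * p n) m

lemma hasSum_cv {f g : ℕ → ℝ} {x y : ℝ} (hf : Summable fun n => ‖f n‖) (hg : Summable fun n => ‖g n‖)
    (hx : HasSum f x) (hy : HasSum g y) : HasSum (cv f g) (x * y) := by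
  have h1 := summable_norm_sum_mul_range_of_summable_norm hf hg
  have h2 := tsum_mul_tsum_eq_tsum_sum_range_of_summable_norm hf hg
  rw [hx.tsum_eq, hy.tsum_eq] at h2
  rw [h2]
  exact h1.of_norm.hasSum

lemma Law.conv {p q : ℕ → ℝ} {m l : ℝ} (hp : Law p m) (hq : Law q l) : Law (cv p q) (m + l) := by
  have np : ∀ {f : ℕ → ℝ} {x : ℝ}, (∀ n, 0 ≤ f n) → HasSum f x → Summable fun n => ‖f n‖ := by
    intro f x hf hx
    refine hx.summable.congr fun n => ?_
    rw [Real.norm_eq_abs, abs_of_nonneg (hf n)]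
  have hnp : ∀ n : ℕ, 0 ≤ (n : ℝ) * p n := fun n => mul_nonneg (Nat.cast_nonneg n) (hp.nn n)
  have hnq : ∀ n : ℕ, 0 ≤ (n : ℝ) * q n := fun n => mul_nonneg (Nat.cast_nonneg n) (hq.nn n)
  refine ⟨cv_nonneg hp.nn hq.nn, ?_, ?_, ?_⟩
  · have := hasSum_cv (np hp.nn hp.one) (np hq.nn hq.one) hp.one hq.one
    rwa [one_mul] at this
  · unfold cv
    rw [zero_add, sum_range_one, Nat.sub_zero]
    exact mul_pos hp.zero hq.zero
  · have h1 := hasSum_cv (np hnp hp.mean) (np hq.nn hq.one) hp.mean hq.one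
    have h2 := hasSum_cv (np hp.nn hp.one) (np hnq hq.mean) hp.one hq.mean
    have h3 := h1.add h2
    rw [mul_one, one_mul] at h3
    refine h3.congr_fun fun n => ?_
    unfold cv
    rw [mul_sum, ← sum_add_distrib]
    refine sum_congr rfl fun i hi => ?_
    have h4 : i ≤ n := by
      have := mem_range.1 hi
      omega
    have h5 : (n : ℝ) = i + ((n - i : ℕ) : ℝ) := by
      rw [Nat.cast_sub h4]
      ring
    rw [h5]
    have h6 : i + (n - i) - i = n - i := by omega
    ring

lemma gf_cv (p q : ℕ → ℝ) : gf (cv p q) = gf p * gf q := by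
  ext n
  rw [coeff_gf, coeff_gf_mul]

lemma Law.prod {p : ℕ → ℕ → ℝ} {m : ℕ → ℝ} (h : ∀ t, Law (p t) (m t)) (N : ℕ) :
    ∃ q, Law q (∑ t ∈ range N, m t) ∧ gf q = ∏ t ∈ range N, gf (p t) := by
  induction N with
  | zero =>
    refine ⟨fun n => if n = 0 then 1 else 0, ⟨fun n => by split_ifs <;> norm_num, ?_, by simp, ?_⟩, ?_⟩
    · exact hasSum_ite_eq 0 1
    · rw [range_zero, sum_empty]
      have h0 : HasSum (fun _ : ℕ => (0 : ℝ)) 0 := hasSum_zero
      refine h0.congr_fun fun n => ?_
      split_ifs with h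
      · rw [h]; simp
      · simp
    · rw [range_zero, prod_empty]
      ext n
      rw [coeff_gf, PowerSeries.coeff_one]
      split_ifs <;> simp
  | succ N ih =>
    obtain ⟨q, hq, hq2⟩ := ih
    refine ⟨cv q (p N), ?_, ?_⟩
    · rw [sum_range_succ]
      exact hq.conv (h N)
    · rw [gf_cv, hq2, prod_range_succ]

variable (p : ℕ → ℕ → ℝ) (a : ℕ → ℕ) (c : ℕ → ℕ → ℂ) (N : ℕ)

/-- `Θ_{t,n} = Σ_{i ≤ n} c_{t,i} F_t(n - i)` -/
noncomputable def Th (t n : ℕ) : ℂ :=
  ∑ i ∈ range (n + 1), c t i * ((∑ j ∈ range (n - i + 1), p t j : ℝ) : ℂ)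

/-- the polynomial of the block `t` -/
noncomputable def HH (t : ℕ) : Polynomial ℂ :=
  ∑ n ∈ range (a t), Polynomial.C (Th p c t n) * Polynomial.X ^ n

/-- the numerator -/
noncomputable def Psi : PowerSeries ℂ :=
  ∑ t ∈ range N, PowerSeries.X ^ ((∑ i ∈ range N, a i) - ∑ i ∈ range (t + 1), a i) *
    (∏ i ∈ range t, gf (p i)) * (HH p a c t : PowerSeries ℂ)

/-- the chain -/
noncomputable def ch (U : PowerSeries ℂ) : ℕ → PowerSeries ℂ
  | 0 => U
  | t + 1 => (gf (p t))⁻¹ * (PowerSeries.X ^ (a t) * ch U t + (1 - PowerSeries.X) *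
      (HH p a c t : PowerSeries ℂ))

section

variable {p a c N}

lemma HH_coeff (t n : ℕ) : (HH p a c t).coeff n = if n < a t then Th p c t n else 0 := by
  unfold HH
  rw [Polynomial.finsetSum_coeff]
  split_ifs with h
  · rw [sum_eq_single n]
    · rw [Polynomial.coeff_C_mul, Polynomial.coeff_X_pow, if_pos rfl, mul_one]
    · intro k _ hk
      rw [Polynomial.coeff_C_mul, Polynomial.coeff_X_pow, if_neg (Ne.symm hk), mul_zero]
    · intro hk
      exact absurd (mem_range.2 h) hk
  · refine sum_eq_zero fun k hk => ?_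
    have := mem_range.1 hk
    rw [Polynomial.coeff_C_mul, Polynomial.coeff_X_pow, if_neg (by omega), mul_zero]

/-- differences of `Θ` -/
lemma Th_succ (t n : ℕ) : Th p c t (n + 1) - Th p c t n =
    ∑ i ∈ range (n + 2), c t i * (p t (n + 1 - i) : ℂ) := by
  unfold Th
  rw [sum_range_succ _ (n + 1), sum_range_succ _ (n + 1), add_sub_right_comm, ← sum_sub_distrib]
  congr 1
  · refine sum_congr rfl fun i hi => ?_
    have h1 : n + 1 - i = n - i + 1 := by
      have := mem_range.1 hi
      omega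
    rw [h1, sum_range_succ _ (n - i + 1)]
    push_cast
    ring
  · rw [Nat.sub_self, zero_add, sum_range_one]

lemma Th_zero (t : ℕ) : Th p c t 0 = c t 0 * (p t 0 : ℂ) := by
  unfold Th
  simp

/-- coefficients of `K_t` -/
lemma K_coeff (t n : ℕ) : PowerSeries.coeff n ((1 - PowerSeries.X) * (HH p a c t : PowerSeries ℂ)) =
    (if n < a t then ∑ i ∈ range (n + 1), c t i * (p t (n - i) : ℂ) else 0) -
      (if n = a t ∧ 0 < a t then Th p c t (a t - 1) else 0) := by
  rw [sub_mul, one_mul, map_sub, Polynomial.coeff_coe, HH_coeff]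
  rcases n with _ | n
  · rw [PowerSeries.coeff_zero_X_mul]
    by_cases h : 0 < a t
    · rw [if_pos h, if_pos h, if_neg (by omega), Th_zero]
      simp
    · rw [if_neg h, if_neg h, if_neg (by omega)]
  · rw [PowerSeries.coeff_succ_X_mul, Polynomial.coeff_coe, HH_coeff]
    by_cases h : n + 1 < a t
    · rw [if_pos h, if_pos (by omega), if_pos h, if_neg (by omega), Th_succ, sub_zero]
    · rw [if_neg h, if_neg h]
      by_cases h2 : n + 1 = a t
      · rw [if_pos (by omega), if_pos ⟨h2, by omega⟩]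
        congr 2
        omega
      · rw [if_neg (by omega), if_neg (by tauto)]

lemma gf_const {q : ℕ → ℝ} (hq : 0 < q 0) : PowerSeries.constantCoeff (gf q) ≠ 0 := by
  rw [← PowerSeries.coeff_zero_eq_constantCoeff_apply, coeff_gf]
  exact_mod_cast hq.ne'

lemma ch_succ (hp0 : ∀ t, 0 < p t 0) (U : PowerSeries ℂ) (t : ℕ) :
    gf (p t) * ch p a c U (t + 1) = PowerSeries.X ^ (a t) * ch p a c U t + (1 - PowerSeries.X) *
      (HH p a c t : PowerSeries ℂ) := by
  rw [ch, ← mul_assoc, PowerSeries.mul_inv_cancel _ (gf_const (hp0 t)), one_mul]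

/-- the telescoped chain -/
lemma ch_tele (hp0 : ∀ t, 0 < p t 0) (U : PowerSeries ℂ) (t : ℕ) :
    (∏ i ∈ range t, gf (p i)) * ch p a c U t = PowerSeries.X ^ (∑ i ∈ range t, a i) * U +
      (1 - PowerSeries.X) * Psi p a c t := by
  induction t with
  | zero => simp [ch, Psi]
  | succ t ih =>
    have h1 : Psi p a c (t + 1) = PowerSeries.X ^ (a t) * Psi p a c t +
        (∏ i ∈ range t, gf (p i)) * (HH p a c t : PowerSeries ℂ) := by
      unfold Psi
      rw [sum_range_succ, Nat.sub_self, pow_zero, one_mul, mul_sum]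
      congr 1
      refine sum_congr rfl fun k hk => ?_
      have h2 : (∑ i ∈ range (t + 1), a i) - ∑ i ∈ range (k + 1), a i =
          a t + ((∑ i ∈ range t, a i) - ∑ i ∈ range (k + 1), a i) := by
        have h3 : ∑ i ∈ range (k + 1), a i ≤ ∑ i ∈ range t, a i := by
          refine sum_le_sum_of_subset (range_mono ?_)
          have := mem_range.1 hk
          omega
        rw [sum_range_succ _ t]
        omega
      rw [h2, pow_add]
      ring
    rw [prod_range_succ, mul_assoc, ch_succ hp0, mul_add, h1, sum_range_succ, pow_add]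
    have h2 : (∏ i ∈ range t, gf (p i)) * (PowerSeries.X ^ a t * ch p a c U t) =
        PowerSeries.X ^ a t * ((∏ i ∈ range t, gf (p i)) * ch p a c U t) := by ring
    rw [h2, ih]
    ring

/-- low coefficients of the chain -/
lemma ch_low (hp0 : ∀ t, 0 < p t 0) (U : PowerSeries ℂ) (t n : ℕ) (hn : n < a t) :
    PowerSeries.coeff n (ch p a c U (t + 1)) = c t n := by
  induction n using Nat.strong_induction_on with
  | _ n ih =>
    have h1 := congrArg (PowerSeries.coeff n) (ch_succ (p := p) (a := a) (c := c) hp0 U t)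
    rw [map_add, K_coeff, if_pos hn, if_neg (by omega), sub_zero, PowerSeries.coeff_X_pow_mul',
      if_neg (by omega), zero_add, mul_comm, PowerSeries.coeff_mul,
      Finset.Nat.sum_antidiagonal_eq_sum_range_succ_mk] at h1
    simp only [coeff_gf] at h1
    rw [sum_range_succ, sum_range_succ, Nat.sub_self] at h1
    have h2 : ∑ k ∈ range n, PowerSeries.coeff k (ch p a c U (t + 1)) * (p t (n - k) : ℂ) =
        ∑ k ∈ range n, c t k * (p t (n - k) : ℂ) := by
      refine sum_congr rfl fun k hk => ?_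
      have := mem_range.1 hk
      rw [ih k this (by omega)]
    rw [h2] at h1
    have h3 := add_left_cancel h1
    exact mul_right_cancel₀ (by exact_mod_cast (hp0 t).ne') h3

lemma coeff_gf_mul' (q : ℕ → ℝ) (U : PowerSeries ℂ) (n : ℕ) : PowerSeries.coeff n (gf q * U) =
    ∑ i ∈ range (n + 1), (q i : ℂ) * PowerSeries.coeff (n - i) U := by
  rw [PowerSeries.coeff_mul, Finset.Nat.sum_antidiagonal_eq_sum_range_succ_mk]
  simp only [coeff_gf]

/-- **The chain follows the Lindley operators.** -/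
lemma ch_lin (hp0 : ∀ t, 0 < p t 0) (U : PowerSeries ℂ) (t k : ℕ) :
    PowerSeries.coeff k (ch p a c U t) =
      LinC (p t) (a t) (fun n => PowerSeries.coeff n (ch p a c U (t + 1))) k := by
  have h1 := fun n => congrArg (PowerSeries.coeff n) (ch_succ (p := p) (a := a) (c := c) hp0 U t)
  simp only [map_add, K_coeff, PowerSeries.coeff_X_pow_mul', coeff_gf_mul'] at h1
  have h2 := h1 (a t + k)
  rw [if_pos (by omega), Nat.add_sub_cancel_left, if_neg (by omega), zero_sub] at h2
  unfold LinC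
  split_ifs with hk
  · subst hk
    rw [add_zero] at h2
    have h3 : ∀ n ∈ range (a t), ∑ i ∈ range (n + 1), (p t i : ℂ) *
        PowerSeries.coeff (n - i) (ch p a c U (t + 1)) =
        ∑ i ∈ range (n + 1), c t i * (p t (n - i) : ℂ) := by
      intro n hn
      have h4 := h1 n
      rw [if_neg (not_le.2 (mem_range.1 hn)), if_pos (mem_range.1 hn),
        if_neg (by have := mem_range.1 hn; omega), sub_zero, zero_add] at h4
      exact h4
    rw [sum_range_succ, sum_congr rfl h3]
    have h5 : ∀ n, Th p c t n = ∑ j ∈ range (n + 1), ∑ i ∈ range (j + 1), c t i * (p t (j - i) : ℂ) := by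
      intro n
      induction n with
      | zero => rw [Th_zero]; simp
      | succ n ih => rw [sum_range_succ, ← ih, ← Th_succ]; ring
    rcases Nat.eq_zero_or_pos (a t) with h6 | h6
    · rw [h6] at h2 ⊢
      rw [if_neg (by omega), neg_zero, add_zero] at h2
      rw [range_zero, sum_empty, zero_add]
      exact h2.symm
    · rw [if_pos ⟨rfl, h6⟩, h5 (a t - 1), Nat.sub_add_cancel h6] at h2
      rw [h2]
      ring
  · rw [if_neg (by omega), neg_zero, add_zero] at h2
    exact h2.symm

/-- **Core theorem.** -/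
theorem core {m : ℕ → ℝ} (hl : ∀ t, Law (p t) (m t)) (hA : 0 < ∑ t ∈ range N, a t)
    (hneg : ∑ t ∈ range N, m t < (∑ t ∈ range N, a t : ℕ))
    (h1 : ev (Psi p a c N) 1 = 0)
    (hbd : ∀ β : ℂ, ‖β‖ = 1 → β ≠ 1 → ev (∏ t ∈ range N, gf (p t) - PowerSeries.X ^
      (∑ t ∈ range N, a t)) β = 0 → ev (Psi p a c N) β = 0)
    (hint : ∀ α : ℂ, α ≠ 0 → ‖α‖ < 1 → analyticOrderAt (ev (∏ t ∈ range N, gf (p t) -
      PowerSeries.X ^ (∑ t ∈ range N, a t))) α ≤ analyticOrderAt (ev (Psi p a c N)) α) :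
    ∀ t < N, ∀ n < a t, c t n = 0 := by
  obtain ⟨q, hq, hgq⟩ := Law.prod hl N
  set A := ∑ t ∈ range N, a t with hAdef
  rw [← hgq] at hbd hint
  have hp0 : ∀ t, 0 < p t 0 := fun t => (hl t).zero
  set Q : PowerSeries ℂ := gf q - PowerSeries.X ^ A with hQ
  have hQ0 : PowerSeries.constantCoeff Q ≠ 0 := by
    rw [← PowerSeries.coeff_zero_eq_constantCoeff_apply, hQ, map_sub, coeff_gf,
      PowerSeries.coeff_X_pow, if_neg hA.ne, sub_zero]
    exact_mod_cast hq.zero.ne'
  have hQne : Q ≠ 0 := by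
    intro h
    rw [h, map_zero] at hQ0
    exact hQ0 rfl
  set U : PowerSeries ℂ := Q⁻¹ * ((1 - PowerSeries.X) * Psi p a c N) with hU
  have hQU : Q * U = (1 - PowerSeries.X) * Psi p a c N := by
    rw [hU, ← mul_assoc, PowerSeries.mul_inv_cancel _ hQ0, one_mul]
  -- the chain is cyclic
  have hcyc : ch p a c U N = U := by
    have h2 := ch_tele (p := p) (a := a) (c := c) hp0 U N
    have h3 : (∏ i ∈ range N, gf (p i)) ≠ 0 := by
      refine prod_ne_zero_iff.2 fun i _ h => ?_
      have := gf_const (hp0 i)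
      rw [h, map_zero] at this
      exact this rfl
    refine mul_left_cancel₀ h3 ?_
    rw [h2, ← hQU, hQ, ← hgq]
    ring
  have hW : W1 (Psi p a c N) := by
    unfold Psi
    refine W1.sum _ _ fun t _ => ?_
    refine (W1.mul ?_ (W1.prod _ _ fun i _ => ?_)).mul (W1.poly _)
    · have := W1.poly (Polynomial.X ^ (A - ∑ i ∈ range (t + 1), a i))
      rwa [Polynomial.coe_pow, Polynomial.coe_X] at this
    · exact gf_W1 (hl i).nn (hl i).one.summable (hl i).mean.summable
  have hres := quot_L1 (p := q) (A := A) (U := -U) (Ψ := Psi p a c N) hq.nn hq.one hq.zero hA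
    hq.mean.summable (by rw [hq.mean.tsum_eq]; exact hneg) (by
      rw [mul_neg, hQU, map_one]
      ring) hW h1 hbd hint
  obtain ⟨h2, h3⟩ := hres
  have h4 : L1 U := by
    have := h2.neg
    rwa [neg_neg] at this
  have h5 : ∑' n, PowerSeries.coeff n U = 0 := by
    unfold ev at h3
    simp only [map_neg, one_pow, mul_one, tsum_neg, neg_eq_zero] at h3
    exact h3
  have h6 := chain_zeroC (p := p) (a := a) (N := N) (fun t => (hl t).nn) (fun t => (hl t).one) hp0 hA
    (U := fun t n => PowerSeries.coeff n (ch p a c U t)) (fun t _ k => ch_lin hp0 U t k)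
    (by simp only [hcyc, ch]) (by simpa only [ch, L1] using h4) (by simpa only [ch] using h5)
  intro t ht n hn
  rw [← ch_low (p := p) (a := a) (c := c) hp0 U t n hn]
  exact h6 (t + 1) (by omega) n

end

end Q194.RW
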