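import Pool.Agent.Q194.RW.Core

/-!
# Counting the zeros in the closed unit disc
-/

namespace Q194.RW

open Finset Filter Topology

/-- continuity on the closed disc -/
lemma ev_cont {g : PowerSeries ℂ} (hg : L1 g) : ContinuousOn (ev g) (Metric.closedBall 0 1) := by
  unfold ev
  refine continuousOn_tsum (fun n => by fun_prop) hg fun n s hs => ?_
  rw [norm_mul, norm_pow]
  exact mul_le_of_le_one_right (norm_nonneg _) (pow_le_one₀ (norm_nonneg _) (mem_closedBall_zero_iff.1 hs))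

lemma ev_hasDeriv {g : PowerSeries ℂ} (hg : L1 g) {β : ℂ} (hβ : ‖β‖ ≤ 1) :
    HasDerivWithinAt (ev ((PowerSeries.X - PowerSeries.C β) * g)) (ev g β) (Metric.closedBall 0 1) β := by
  have h1 : ∀ s ∈ Metric.closedBall (0 : ℂ) 1, ev ((PowerSeries.X - PowerSeries.C β) * g) s =
      (s - β) * ev g s := by
    intro s hs
    rw [ev_mul (by rw [← coe_XC]; exact L1.poly _) hg (mem_closedBall_zero_iff.1 hs), ← coe_XC, ev_poly]
    simp
  have hc := ev_cont hg β (mem_closedBall_zero_iff.2 hβ)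
  rw [hasDerivWithinAt_iff_tendsto_slope]
  have h2 : Tendsto (ev g) (𝓝[Metric.closedBall 0 1 \ {β}] β) (𝓝 (ev g β)) :=
    hc.mono_left (nhdsWithin_mono _ Set.diff_subset)
  refine h2.congr' ?_
  filter_upwards [self_mem_nhdsWithin] with s hs
  have hs0 : s - β ≠ 0 := sub_ne_zero.2 hs.2
  rw [slope_def_field, h1 s hs.1, h1 β (mem_closedBall_zero_iff.2 hβ), sub_self, zero_mul, sub_zero,
    mul_div_cancel_left₀ _ hs0]

lemma order_le_rootMult {L : Polynomial ℂ} (hL : L ≠ 0) (α : ℂ) :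
    analyticOrderAt (ev (L : PowerSeries ℂ)) α = (L.rootMultiplicity α : ℕ) := by
  obtain ⟨M, hM, hnd⟩ := L.exists_eq_pow_rootMultiplicity_mul_and_not_dvd hL α
  set r := L.rootMultiplicity α with hr
  have h1 : ev (L : PowerSeries ℂ) = ((fun s => s - α) ^ r) * fun s => M.eval s := by
    funext s
    rw [ev_poly]
    conv_lhs => rw [hM]
    simp
  have h2 : AnalyticAt ℂ (fun s => M.eval s) α := by
    exact (M.differentiable).analyticAt α
  have h3 : analyticOrderAt (fun s => M.eval s) α = 0 := by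
    rw [h2.analyticOrderAt_eq_zero]
    intro h
    exact hnd (Polynomial.dvd_iff_isRoot.2 h)
  rw [h1, analyticOrderAt_mul (by fun_prop) h2, h3, add_zero]
  exact analyticOrderAt_centeredMonomial

/-- **The polynomial that controls the zeros.** -/
theorem count {q : ℕ → ℝ} {m : ℝ} {A : ℕ} (hq : Law q m) (hA : 0 < A) (hneg : m < A) :
    ∃ L : Polynomial ℂ, L ≠ 0 ∧ L.natDegree ≤ A ∧ L.eval 1 = 0 ∧
      (∀ α : ℂ, ‖α‖ < 1 → analyticOrderAt (ev (gf q - PowerSeries.X ^ A)) α ≤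
        (L.rootMultiplicity α : ℕ)) ∧
      (∀ β : ℂ, ‖β‖ = 1 → ev (gf q - PowerSeries.X ^ A) β = 0 → L.eval β = 0 ∧
        ∃ g, L1 g ∧ gf q - PowerSeries.X ^ A = (PowerSeries.X - PowerSeries.C β) * g ∧ ev g β ≠ 0) := by
  obtain ⟨v, hv, hvs, hv0, hfix⟩ := exists_stat hq.nn hq.one hq.mean.summable
    (by rw [hq.mean.tsum_eq]; exact hneg)
  have hVQ := gf_mul_eq (p := q) (v := v) (A := A) hfix
  set Q : PowerSeries ℂ := gf q - PowerSeries.X ^ A with hQ
  have hXA : (PowerSeries.X ^ A : PowerSeries ℂ) = ((Polynomial.X ^ A : Polynomial ℂ) : PowerSeries ℂ) := by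
    rw [Polynomial.coe_pow, Polynomial.coe_X]
  have hQW : W1 Q := by
    rw [hQ, sub_eq_add_neg, hXA]
    refine (gf_W1 hq.nn hq.one.summable hq.mean.summable).add ?_
    have := W1.poly (-Polynomial.X ^ A)
    rwa [Polynomial.coe_neg] at this
  have hVL : L1 (gf v) := gf_L1 hv hvs
  have hLne : Lp q v A ≠ 0 := Lp_ne hq.nn hq.zero hA hv hv0 hfix
  refine ⟨Lp q v A, hLne, Lp_degree hA, ?_, fun α hα => ?_, fun β hβ hβ0 => ?_⟩
  · rw [Lp_eval]
    simp
  · rw [← order_le_rootMult hLne, ← hVQ, order_mul hVL.conv hQW.l1.conv hα]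
    exact le_add_self
  · have h1 : (Lp q v A).eval β = 0 := by
      rw [← ev_poly, ← hVQ, ev_mul hVL hQW.l1 hβ.le, hβ0, mul_zero]
    refine ⟨h1, ?_⟩
    obtain ⟨g, hg, hQg⟩ := div_bd hβ hQW.w hQW.l1 hβ0
    refine ⟨g, hg, hQg, fun h2 => ?_⟩
    have h3 := (root_bd hq.nn hq.zero hA hv hv0 hfix hβ h1).2.2
    obtain ⟨E, hE⟩ := Polynomial.dvd_iff_isRoot.2 (show (Lp q v A).IsRoot β from h1)
    have h4 : gf v * g = (E : PowerSeries ℂ) := by
      refine mul_left_cancel₀ (X_sub_C_ne β) ?_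
      rw [← coe_XC, ← Polynomial.coe_mul, ← hE, ← hVQ, hQg, coe_XC]
      ring
    apply h3
    rw [hE, Polynomial.derivative_mul]
    simp only [Polynomial.derivative_sub, Polynomial.derivative_X, Polynomial.derivative_C, sub_zero,
      one_mul, Polynomial.eval_add, Polynomial.eval_mul, Polynomial.eval_sub, Polynomial.eval_X,
      Polynomial.eval_C, sub_self, zero_mul, add_zero]
    rw [← ev_poly, ← h4, ev_mul hVL hg hβ.le, h2, mul_zero]

/-! ### multiplicities by derivatives within the closed disc -/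

lemma uniq : UniqueDiffOn ℂ (Metric.closedBall (0 : ℂ) 1) :=
  uniqueDiffOn_convex_of_isRCLikeNormedField (convex_closedBall 0 1) (by
    rw [interior_closedBall 0 one_ne_zero]
    exact ⟨0, Metric.mem_ball_self one_pos⟩)

lemma idw_eq {f : ℂ → ℂ} {α : ℂ} (hα : ‖α‖ < 1) (hf : AnalyticAt ℂ f α) (k : ℕ) :
    iteratedDerivWithin k f (Metric.closedBall 0 1) α = iteratedDeriv k f α :=
  iteratedDerivWithin_eq_iteratedDeriv uniq hf.contDiffAt (mem_closedBall_zero_iff.2 hα.le)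

lemma mult_int {f : ℂ → ℂ} {α : ℂ} (hα : ‖α‖ < 1) (hf : AnalyticAt ℂ f α) {n : ℕ}
    (hn : analyticOrderAt f α = n) :
    sInf {k | iteratedDerivWithin k f (Metric.closedBall 0 1) α ≠ 0} = n ∧
      iteratedDerivWithin n f (Metric.closedBall 0 1) α ≠ 0 := by
  rw [analyticOrderAt_eq_nat_iff_iteratedDeriv_eq_zero hf] at hn
  have h1 : iteratedDerivWithin n f (Metric.closedBall 0 1) α ≠ 0 := by
    rw [idw_eq hα hf]
    exact hn.2
  refine ⟨le_antisymm (Nat.sInf_le h1) (le_csInf ⟨n, h1⟩ fun k hk => ?_), h1⟩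
  by_contra hcon
  push Not at hcon
  rw [Set.mem_setOf_eq, idw_eq hα hf] at hk
  exact hk (hn.1 k hcon)

lemma mult_bd {f : ℂ → ℂ} {α d : ℂ} (hα : ‖α‖ ≤ 1) (h0 : f α = 0)
    (hf : HasDerivWithinAt f d (Metric.closedBall 0 1) α) (hd : d ≠ 0) :
    sInf {k | iteratedDerivWithin k f (Metric.closedBall 0 1) α ≠ 0} = 1 ∧
      iteratedDerivWithin 1 f (Metric.closedBall 0 1) α ≠ 0 := by
  have h1 : iteratedDerivWithin 1 f (Metric.closedBall 0 1) α ≠ 0 := by
    rw [iteratedDerivWithin_one, hf.derivWithin (uniq α (mem_closedBall_zero_iff.2 hα))]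
    exact hd
  refine ⟨le_antisymm (Nat.sInf_le h1) (le_csInf ⟨1, h1⟩ fun k hk => ?_), h1⟩
  by_contra hcon
  have hk0 : k = 0 := by omega
  subst hk0
  rw [Set.mem_setOf_eq, iteratedDerivWithin_zero] at hk
  exact hk h0

end Q194.RW
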