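import Pool.Agent.Q194.RW.PS

/-!
# Convergent power series: analyticity, weighted sums, division by a polynomial
-/

namespace Q194.RW

open PowerSeries Filter Topology

/-- weighted absolute summability -/
def W1 (f : ℂ⟦X⟧) : Prop := Summable fun n : ℕ => ‖coeff n f‖ * ((n : ℝ) + 1)

lemma W1.l1 {f : ℂ⟦X⟧} (hf : W1 f) : L1 f := by
  refine Summable.of_nonneg_of_le (fun n => norm_nonneg _) (fun n => ?_) hf
  refine le_mul_of_one_le_right (norm_nonneg _) ?_
  have : (0 : ℝ) ≤ n := Nat.cast_nonneg n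
  linarith

lemma W1.w {f : ℂ⟦X⟧} (hf : W1 f) : Summable fun n : ℕ => ‖coeff n f‖ * n := by
  refine Summable.of_nonneg_of_le (fun n => by positivity) (fun n => ?_) hf
  refine mul_le_mul_of_nonneg_left ?_ (norm_nonneg _)
  linarith

lemma W1.add {f g : ℂ⟦X⟧} (hf : W1 f) (hg : W1 g) : W1 (f + g) := by
  refine Summable.of_nonneg_of_le (fun n => by positivity) (fun n => ?_) (Summable.add hf hg)
  rw [map_add, ← add_mul]
  exact mul_le_mul_of_nonneg_right (norm_add_le _ _) (by positivity)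

lemma W1.mul {f g : ℂ⟦X⟧} (hf : W1 f) (hg : W1 g) : W1 (f * g) := by
  set F : ℂ⟦X⟧ := PowerSeries.mk fun n => ((‖coeff n f‖ * ((n : ℝ) + 1) : ℝ) : ℂ) with hF
  set G : ℂ⟦X⟧ := PowerSeries.mk fun n => ((‖coeff n g‖ * ((n : ℝ) + 1) : ℝ) : ℂ) with hG
  have hF1 : L1 F := by
    refine Summable.congr hf fun n => ?_
    rw [hF, coeff_mk, Complex.norm_real, Real.norm_eq_abs, abs_of_nonneg (by positivity)]
  have hG1 : L1 G := by
    refine Summable.congr hg fun n => ?_
    rw [hG, coeff_mk, Complex.norm_real, Real.norm_eq_abs, abs_of_nonneg (by positivity)]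
  refine Summable.of_nonneg_of_le (fun n => by positivity) (fun n => ?_) (hF1.mul hG1)
  rw [coeff_mul, coeff_mul]
  have h1 : ∑ p ∈ Finset.HasAntidiagonal.antidiagonal n, coeff p.1 F * coeff p.2 G =
      ((∑ p ∈ Finset.HasAntidiagonal.antidiagonal n, (‖coeff p.1 f‖ * ((p.1 : ℝ) + 1)) *
        (‖coeff p.2 g‖ * ((p.2 : ℝ) + 1)) : ℝ) : ℂ) := by
    rw [Complex.ofReal_sum]
    refine Finset.sum_congr rfl fun p _ => ?_
    rw [hF, hG, coeff_mk, coeff_mk, ← Complex.ofReal_mul]
  rw [h1, Complex.norm_real, Real.norm_eq_abs, abs_of_nonneg (Finset.sum_nonneg fun p _ => by positivity)]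
  refine (mul_le_mul_of_nonneg_right (norm_sum_le _ _) (by positivity)).trans ?_
  rw [Finset.sum_mul]
  refine Finset.sum_le_sum fun p hp => ?_
  have h2 : (n : ℝ) = p.1 + p.2 := by
    rw [← Finset.HasAntidiagonal.mem_antidiagonal.1 hp]
    push_cast
    ring
  rw [norm_mul, h2]
  have h3 : (0 : ℝ) ≤ p.1 := Nat.cast_nonneg _
  have h4 : (0 : ℝ) ≤ p.2 := Nat.cast_nonneg _
  have h5 : (p.1 : ℝ) + p.2 + 1 ≤ (p.1 + 1) * (p.2 + 1) := by nlinarith
  calc ‖coeff p.1 f‖ * ‖coeff p.2 g‖ * ((p.1 : ℝ) + p.2 + 1)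
      ≤ ‖coeff p.1 f‖ * ‖coeff p.2 g‖ * (((p.1 : ℝ) + 1) * (p.2 + 1)) :=
        mul_le_mul_of_nonneg_left h5 (by positivity)
    _ = _ := by ring

lemma W1.poly (p : Polynomial ℂ) : W1 (p : ℂ⟦X⟧) := by
  unfold W1
  refine summable_of_ne_finset_zero (s := p.support) fun n hn => ?_
  rw [Polynomial.coeff_coe, Polynomial.notMem_support_iff.1 hn, norm_zero, zero_mul]

lemma W1.zero : W1 (0 : ℂ⟦X⟧) := by
  have := W1.poly 0
  rwa [Polynomial.coe_zero] at this

lemma W1.one : W1 (1 : ℂ⟦X⟧) := by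
  have := W1.poly 1
  rwa [Polynomial.coe_one] at this

lemma W1.sum {ι : Type*} (s : Finset ι) (f : ι → ℂ⟦X⟧) (h : ∀ i ∈ s, W1 (f i)) :
    W1 (∑ i ∈ s, f i) := by
  classical
  induction s using Finset.induction_on with
  | empty => exact W1.zero
  | insert a s ha ih =>
    rw [Finset.sum_insert ha]
    exact (h a (Finset.mem_insert_self a s)).add (ih fun i hi => h i (Finset.mem_insert_of_mem hi))

lemma W1.prod {ι : Type*} (s : Finset ι) (f : ι → ℂ⟦X⟧) (h : ∀ i ∈ s, W1 (f i)) :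
    W1 (∏ i ∈ s, f i) := by
  classical
  induction s using Finset.induction_on with
  | empty => exact W1.one
  | insert a s ha ih =>
    rw [Finset.prod_insert ha]
    exact (h a (Finset.mem_insert_self a s)).mul (ih fun i hi => h i (Finset.mem_insert_of_mem hi))

/-- The value of a convergent series is analytic in the open disc. -/
lemma ev_analytic {f : ℂ⟦X⟧} (hf : Conv f) {z : ℂ} (hz : ‖z‖ < 1) : AnalyticAt ℂ (ev f) z := by
  obtain ⟨r, hr1, hr2⟩ := exists_between hz
  have hr0 : 0 < r := (norm_nonneg z).trans_lt hr1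
  have hd : DifferentiableOn ℂ (fun w => ∑' n, coeff n f * w ^ n) (Metric.ball 0 r) := by
    refine Complex.differentiableOn_tsum_of_summable_norm (hf r hr0.le hr2) (fun n => ?_)
      Metric.isOpen_ball fun n w hw => ?_
    · exact ((differentiable_id.pow n).const_mul _).differentiableOn
    · rw [norm_mul, norm_pow]
      refine mul_le_mul_of_nonneg_left (pow_le_pow_left₀ (norm_nonneg _) ?_ n) (norm_nonneg _)
      exact (mem_ball_zero_iff.1 hw).le
  exact hd.analyticAt (Metric.isOpen_ball.mem_nhds (mem_ball_zero_iff.2 hr1))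

lemma conv_of_lt {f : ℂ⟦X⟧} {r0 : ℝ} (h0 : 0 ≤ r0) (h1 : r0 < 1)
    (h : ∀ r, r0 < r → r < 1 → L1 (sc r f)) : Conv f := by
  rw [conv_iff]
  intro r hr0 hr1
  obtain ⟨t, ht1, ht2⟩ := exists_between (max_lt h1 hr1)
  have h2 := h t ((le_max_left _ _).trans_lt ht1) ht2
  refine Summable.of_nonneg_of_le (fun n => norm_nonneg _) (fun n => ?_) h2
  unfold sc
  rw [coeff_rescale, coeff_rescale, norm_mul, norm_mul, norm_pow, norm_pow, Complex.norm_real,
    Complex.norm_real, Real.norm_eq_abs, Real.norm_eq_abs, abs_of_nonneg hr0,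
    abs_of_nonneg (h0.trans ((le_max_left _ _).trans ht1.le))]
  exact mul_le_mul_of_nonneg_right (pow_le_pow_left₀ hr0 ((le_max_right _ _).trans ht1.le) n)
    (norm_nonneg _)

lemma L1.smul' {f : ℂ⟦X⟧} {c : ℂ} (hc : c ≠ 0) (h : L1 (PowerSeries.C c * f)) : L1 f := by
  have h1 : f = ((Polynomial.C c⁻¹ : Polynomial ℂ) : ℂ⟦X⟧) * (PowerSeries.C c * f) := by
    rw [← mul_assoc, Polynomial.coe_C, ← map_mul, inv_mul_cancel₀ hc, map_one, one_mul]
  rw [h1]
  exact (L1.poly _).mul h

/-- removing one interior zero keeps convergence -/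
lemma conv_div_int {g : ℂ⟦X⟧} {a : ℂ} (ha : ‖a‖ < 1)
    (hf : Conv ((PowerSeries.X - PowerSeries.C a) * g))
    (h0 : ev ((PowerSeries.X - PowerSeries.C a) * g) a = 0) : Conv g := by
  set f := (PowerSeries.X - PowerSeries.C a) * g with hfdef
  refine conv_of_lt (norm_nonneg a) ha fun r hr hr1 => ?_
  have hr0 : 0 < r := (norm_nonneg a).trans_lt hr
  have hrc : (r : ℂ) ≠ 0 := by exact_mod_cast hr0.ne'
  have hL : L1 (sc r f) := (conv_iff.1 hf) r hr0.le hr1
  have hsc : sc r f = (PowerSeries.X - PowerSeries.C (a / r)) * (PowerSeries.C (r : ℂ) * sc r g) := by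
    unfold sc
    rw [hfdef, map_mul, map_sub]
    have e1 : rescale (r : ℂ) (PowerSeries.X : ℂ⟦X⟧) = PowerSeries.C (r : ℂ) * PowerSeries.X := by
      ext n
      rw [coeff_rescale, coeff_C_mul, coeff_X]
      split_ifs with h
      · rw [h]; ring
      · ring
    have e2 : rescale (r : ℂ) (PowerSeries.C a : ℂ⟦X⟧) = PowerSeries.C (r : ℂ) * PowerSeries.C (a / r) := by
      rw [← map_mul, mul_div_cancel₀ _ hrc]
      ext n
      rw [coeff_rescale, coeff_C]
      split_ifs with h
      · rw [h]; ring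
      · ring
    rw [e1, e2]
    ring
  have hb : ‖a / (r : ℂ)‖ < 1 := by
    rw [norm_div, Complex.norm_real, Real.norm_eq_abs, abs_of_pos hr0, div_lt_one hr0]
    exact hr
  refine L1.smul' hrc ?_
  by_cases ha0 : a = 0
  · subst ha0
    rw [zero_div, map_zero, sub_zero] at hsc
    have h1 : L1 (PowerSeries.X * (PowerSeries.C (r : ℂ) * sc r g)) := by
      rw [← hsc]; exact hL
    have h2 := (summable_nat_add_iff (f := fun n => ‖coeff n (PowerSeries.X *
      (PowerSeries.C (r : ℂ) * sc r g))‖) 1).2 h1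
    simp only [coeff_succ_X_mul] at h2
    exact h2
  · have hne : a / (r : ℂ) ≠ 0 := div_ne_zero ha0 hrc
    have hev : ev (sc r f) (a / r) = 0 := by
      rw [← h0]
      unfold ev sc
      refine tsum_congr fun n => ?_
      rw [coeff_rescale, div_pow]
      field_simp
    have h1 := tq_spec (ev_summable hL hb.le) hne hev
    have h2 : PowerSeries.C (r : ℂ) * sc r g = tq (sc r f) (a / r) :=
      mul_left_cancel₀ (X_sub_C_ne (a / r)) (by rw [← hsc]; exact h1)
    rw [h2]
    refine tq_L1 (Summable.of_nonneg_of_le (fun n => mul_nonneg (norm_nonneg _)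
      (Finset.sum_nonneg fun j _ => pow_nonneg (norm_nonneg _) _)) (fun n => ?_)
      (hL.mul_right (1 - ‖a / (r : ℂ)‖)⁻¹))
    exact mul_le_mul_of_nonneg_left (geo_le hb n) (norm_nonneg _)

/-- removing one zero outside the open disc keeps convergence -/
lemma conv_div_ext {g : ℂ⟦X⟧} {a : ℂ} (ha : 1 ≤ ‖a‖)
    (hf : Conv ((PowerSeries.X - PowerSeries.C a) * g)) : Conv g := by
  have ha0 : a ≠ 0 := by
    rintro rfl
    rw [norm_zero] at ha
    linarith
  set u : ℂ⟦X⟧ := PowerSeries.mk fun n => -(a⁻¹) ^ (n + 1) with hu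
  have hu1 : Conv u := by
    intro r hr0 hr1
    refine Summable.of_nonneg_of_le (fun n => by positivity) (fun n => ?_)
      (summable_geometric_of_lt_one hr0 hr1)
    rw [hu, coeff_mk, norm_neg, norm_pow, norm_inv]
    refine mul_le_of_le_one_left (pow_nonneg hr0 n) (pow_le_one₀ (by positivity) ?_)
    exact inv_le_one_of_one_le₀ ha
  have h1 : u * (PowerSeries.X - PowerSeries.C a) = 1 := by
    ext n
    rw [mul_sub, map_sub, coeff_mul_C]
    rcases n with _ | n
    · rw [coeff_zero_mul_X, hu, coeff_mk, coeff_one, if_pos rfl, zero_add, pow_one]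
      field_simp
      simp
    · rw [coeff_succ_mul_X, hu, coeff_mk, coeff_mk, coeff_one, if_neg (Nat.succ_ne_zero n)]
      rw [pow_succ (a⁻¹) (n + 1)]
      field_simp
      simp
  have h2 : g = u * ((PowerSeries.X - PowerSeries.C a) * g) := by
    rw [← mul_assoc, h1, one_mul]
  rw [h2]
  exact hu1.mul hf

lemma conv_poly (p : Polynomial ℂ) : Conv (p : ℂ⟦X⟧) := (L1.poly p).conv

lemma conv_XC (a : ℂ) : Conv (PowerSeries.X - PowerSeries.C a : ℂ⟦X⟧) := by
  rw [← coe_XC]
  exact conv_poly _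

lemma order_mul {f g : ℂ⟦X⟧} (hf : Conv f) (hg : Conv g) {z : ℂ} (hz : ‖z‖ < 1) :
    analyticOrderAt (ev (f * g)) z = analyticOrderAt (ev f) z + analyticOrderAt (ev g) z := by
  rw [← analyticOrderAt_mul (ev_analytic hf hz) (ev_analytic hg hz)]
  refine analyticOrderAt_congr ?_
  filter_upwards [Metric.isOpen_ball.mem_nhds (mem_ball_zero_iff.2 hz)] with w hw
  rw [ev_mul' hf hg (mem_ball_zero_iff.1 hw)]
  rfl

lemma order_XC_ne_top (a z : ℂ) : analyticOrderAt (ev (PowerSeries.X - PowerSeries.C a : ℂ⟦X⟧)) z ≠ ⊤ := by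
  intro h
  rw [analyticOrderAt_eq_top] at h
  have h1 : ∀ w, ev (PowerSeries.X - PowerSeries.C a : ℂ⟦X⟧) w = w - a := by
    intro w
    rw [← coe_XC, ev_poly]
    simp
  simp only [h1] at h
  have h2 : ∀ᶠ w in 𝓝[≠] z, w = a := by
    filter_upwards [h.filter_mono nhdsWithin_le_nhds] with w hw
    exact sub_eq_zero.1 hw
  have h3 : ∀ᶠ w in 𝓝[≠] z, w ≠ a := by
    by_cases hza : z = a
    · subst hza
      exact eventually_mem_nhdsWithin
    · exact (isOpen_ne.eventually_mem hza).filter_mono nhdsWithin_le_nhds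
  obtain ⟨w, hw1, hw2⟩ := (h2.and h3).exists
  exact hw2 hw1

/-- **Division by a polynomial.** -/
lemma conv_div {W f : ℂ⟦X⟧} (E : Polynomial ℂ) (hE : E ≠ 0) (hf : Conv f) (h : (E : ℂ⟦X⟧) * W = f)
    (hord : ∀ a : ℂ, ‖a‖ < 1 → analyticOrderAt (ev (E : ℂ⟦X⟧)) a ≤ analyticOrderAt (ev f) a) :
    Conv W := by
  induction hn : E.natDegree generalizing E f with
  | zero =>
    obtain ⟨c, rfl⟩ : ∃ c, E = Polynomial.C c := ⟨_, Polynomial.eq_C_of_natDegree_eq_zero hn⟩
    have hc : c ≠ 0 := by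
      rintro rfl
      exact hE (map_zero _)
    have h1 : W = ((Polynomial.C c⁻¹ : Polynomial ℂ) : ℂ⟦X⟧) *
        (((Polynomial.C c : Polynomial ℂ) : ℂ⟦X⟧) * W) := by
      rw [← mul_assoc, ← Polynomial.coe_mul, ← Polynomial.C_mul, inv_mul_cancel₀ hc,
        Polynomial.C_1, Polynomial.coe_one, one_mul]
    rw [h1, h]
    exact (conv_poly _).mul hf
  | succ n ih =>
    have hdeg : 0 < E.degree := by
      rw [Polynomial.degree_eq_natDegree hE, hn]
      exact_mod_cast Nat.succ_pos n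
    obtain ⟨a, ha⟩ := Complex.exists_root hdeg
    obtain ⟨E', hE'⟩ := Polynomial.dvd_iff_isRoot.2 ha
    have hE'0 : E' ≠ 0 := by
      rintro rfl
      rw [mul_zero] at hE'
      exact hE hE'
    have hEc : (E : ℂ⟦X⟧) = (PowerSeries.X - PowerSeries.C a) * (E' : ℂ⟦X⟧) := by
      rw [← coe_XC, ← Polynomial.coe_mul, ← hE']
    set g : ℂ⟦X⟧ := (E' : ℂ⟦X⟧) * W with hg
    have hfg : f = (PowerSeries.X - PowerSeries.C a) * g := by
      rw [← h, hEc, hg, mul_assoc]
    have hgc : Conv g := by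
      rcases lt_or_ge ‖a‖ 1 with h1 | h1
      · refine conv_div_int h1 (by rw [← hfg]; exact hf) ?_
        rw [← hfg]
        have h2 : analyticOrderAt (ev (E : ℂ⟦X⟧)) a ≠ 0 := by
          rw [(ev_analytic (conv_poly E) h1).analyticOrderAt_ne_zero, ev_poly]
          exact ha
        have h3 : analyticOrderAt (ev f) a ≠ 0 := by
          intro h4
          have := hord a h1
          rw [h4] at this
          exact h2 (le_antisymm this (by positivity))
        exact apply_eq_zero_of_analyticOrderAt_ne_zero h3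
      · exact conv_div_ext h1 (by rw [← hfg]; exact hf)
    refine ih E' hE'0 hgc rfl (fun b hb => ?_) ?_
    · have h1 := hord b hb
      rw [hEc, hfg, order_mul (conv_XC a) (conv_poly E') hb, order_mul (conv_XC a) hgc hb] at h1
      exact (ENat.add_le_add_iff_left (order_XC_ne_top a b)).1 h1
    · have h5 := congrArg Polynomial.natDegree hE'
      rw [Polynomial.natDegree_mul (Polynomial.X_sub_C_ne_zero a) hE'0,
        Polynomial.natDegree_X_sub_C, hn] at h5
      omega

end Q194.RW
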