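import Mathlib

/-!
# Absolutely summable power series
-/

namespace Q194.RW

open PowerSeries Filter Topology

/-- absolutely summable coefficients -/
def L1 (f : ℂ⟦X⟧) : Prop := Summable fun n => ‖coeff n f‖

/-- convergence in the open unit disc -/
def Conv (f : ℂ⟦X⟧) : Prop := ∀ r : ℝ, 0 ≤ r → r < 1 → Summable fun n => ‖coeff n f‖ * r ^ n

/-- the value at a point -/
noncomputable def ev (f : ℂ⟦X⟧) (s : ℂ) : ℂ := ∑' n, coeff n f * s ^ n

lemma L1.add {f g : ℂ⟦X⟧} (hf : L1 f) (hg : L1 g) : L1 (f + g) := by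
  refine Summable.of_nonneg_of_le (fun n => norm_nonneg _) (fun n => ?_) (Summable.add hf hg)
  rw [map_add]
  exact norm_add_le _ _

lemma L1.neg {f : ℂ⟦X⟧} (hf : L1 f) : L1 (-f) := by
  unfold L1 at *
  simpa using hf

lemma L1.mul {f g : ℂ⟦X⟧} (hf : L1 f) (hg : L1 g) : L1 (f * g) := by
  have h := summable_norm_sum_mul_antidiagonal_of_summable_norm hf hg
  unfold L1
  simpa only [coeff_mul] using h

lemma L1.poly (p : Polynomial ℂ) : L1 (p : ℂ⟦X⟧) := by
  unfold L1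
  refine summable_of_ne_finset_zero (s := p.support) fun n hn => ?_
  rw [Polynomial.coeff_coe, Polynomial.notMem_support_iff.1 hn, norm_zero]

lemma L1.conv {f : ℂ⟦X⟧} (hf : L1 f) : Conv f := by
  intro r hr0 hr1
  refine Summable.of_nonneg_of_le (fun n => by positivity) (fun n => ?_) hf
  exact mul_le_of_le_one_right (norm_nonneg _) (pow_le_one₀ hr0 hr1.le)

/-- scaling -/
noncomputable def sc (r : ℝ) (f : ℂ⟦X⟧) : ℂ⟦X⟧ := rescale (r : ℂ) f

lemma conv_iff {f : ℂ⟦X⟧} : Conv f ↔ ∀ r : ℝ, 0 ≤ r → r < 1 → L1 (sc r f) := by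
  unfold Conv L1 sc
  refine forall_congr' fun r => forall_congr' fun hr => forall_congr' fun _ => ?_
  refine summable_congr fun n => ?_
  rw [coeff_rescale, norm_mul, norm_pow, Complex.norm_real, Real.norm_eq_abs, abs_of_nonneg hr,
    mul_comm]

lemma Conv.mul {f g : ℂ⟦X⟧} (hf : Conv f) (hg : Conv g) : Conv (f * g) := by
  rw [conv_iff] at *
  intro r h0 h1
  unfold sc
  rw [map_mul]
  exact (hf r h0 h1).mul (hg r h0 h1)

lemma ev_summable {f : ℂ⟦X⟧} (hf : L1 f) {s : ℂ} (hs : ‖s‖ ≤ 1) :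
    Summable fun n => ‖coeff n f * s ^ n‖ := by
  refine Summable.of_nonneg_of_le (fun n => norm_nonneg _) (fun n => ?_) hf
  rw [norm_mul, norm_pow]
  exact mul_le_of_le_one_right (norm_nonneg _) (pow_le_one₀ (norm_nonneg _) hs)

lemma ev_summable' {f : ℂ⟦X⟧} (hf : Conv f) {s : ℂ} (hs : ‖s‖ < 1) :
    Summable fun n => ‖coeff n f * s ^ n‖ := by
  have := hf ‖s‖ (norm_nonneg _) hs
  simpa only [norm_mul, norm_pow] using this

lemma ev_mul_aux {f g : ℂ⟦X⟧} {s : ℂ} (hf : Summable fun n => ‖coeff n f * s ^ n‖)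
    (hg : Summable fun n => ‖coeff n g * s ^ n‖) : ev (f * g) s = ev f s * ev g s := by
  unfold ev
  rw [tsum_mul_tsum_eq_tsum_sum_antidiagonal_of_summable_norm hf hg]
  refine tsum_congr fun n => ?_
  rw [coeff_mul, Finset.sum_mul]
  refine Finset.sum_congr rfl fun p hp => ?_
  rw [← Finset.HasAntidiagonal.mem_antidiagonal.1 hp, pow_add]
  ring

lemma ev_mul {f g : ℂ⟦X⟧} (hf : L1 f) (hg : L1 g) {s : ℂ} (hs : ‖s‖ ≤ 1) :
    ev (f * g) s = ev f s * ev g s := ev_mul_aux (ev_summable hf hs) (ev_summable hg hs)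

lemma ev_mul' {f g : ℂ⟦X⟧} (hf : Conv f) (hg : Conv g) {s : ℂ} (hs : ‖s‖ < 1) :
    ev (f * g) s = ev f s * ev g s := ev_mul_aux (ev_summable' hf hs) (ev_summable' hg hs)

lemma ev_poly (p : Polynomial ℂ) (s : ℂ) : ev (p : ℂ⟦X⟧) s = p.eval s := by
  unfold ev
  rw [tsum_eq_sum (s := p.support) fun n hn => by
    rw [Polynomial.coeff_coe, Polynomial.notMem_support_iff.1 hn, zero_mul]]
  rw [Polynomial.eval_eq_sum, Polynomial.sum_def]
  exact Finset.sum_congr rfl fun n _ => by rw [Polynomial.coeff_coe]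

/-- the tail quotient -/
noncomputable def tq (f : ℂ⟦X⟧) (a : ℂ) : ℂ⟦X⟧ :=
  PowerSeries.mk fun k => ∑' j, coeff (k + 1 + j) f * a ^ j

/-- division by `X - a` -/
lemma tq_spec {f : ℂ⟦X⟧} {a : ℂ} (hs : Summable fun n => ‖coeff n f * a ^ n‖) (ha0 : a ≠ 0)
    (h0 : ev f a = 0) : f = (PowerSeries.X - PowerSeries.C a) * tq f a := by
  have hsum : ∀ k, Summable fun j => coeff (k + j) f * a ^ j := by
    intro k
    have h1 : Summable fun j => coeff (j + k) f * a ^ (j + k) :=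
      (summable_nat_add_iff k).2 hs.of_norm
    have h2 := h1.mul_left (a ^ k)⁻¹
    refine h2.congr fun j => ?_
    rw [pow_add, add_comm k j]
    field_simp
  ext n
  rw [sub_mul, map_sub, coeff_C_mul]
  rcases n with _ | n
  · rw [coeff_zero_X_mul, zero_sub, tq, coeff_mk]
    unfold ev at h0
    rw [(by simpa using hsum 0 : Summable fun j => coeff j f * a ^ j).tsum_eq_zero_add] at h0
    rw [pow_zero, mul_one] at h0
    rw [eq_neg_of_add_eq_zero_left h0]
    congr 1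
    rw [← tsum_mul_left]
    refine tsum_congr fun j => ?_
    rw [zero_add, add_comm 1 j, pow_succ]
    ring
  · rw [coeff_succ_X_mul, tq, coeff_mk, coeff_mk]
    have h1 := (hsum (n + 1)).tsum_eq_zero_add
    rw [h1, add_zero, pow_zero, mul_one, ← tsum_mul_left]
    have h2 : ∀ j, coeff (n + 1 + (j + 1)) f * a ^ (j + 1) =
        a * (coeff (n + 1 + 1 + j) f * a ^ j) := by
      intro j
      have : n + 1 + (j + 1) = n + 1 + 1 + j := by ring
      rw [this, pow_succ]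
      ring
    simp only [h2]
    ring

/-- summability of the tail quotient -/
lemma tq_L1 {f : ℂ⟦X⟧} {a : ℂ}
    (hs : Summable fun n => ‖coeff n f‖ * ∑ j ∈ Finset.range n, ‖a‖ ^ j) : L1 (tq f a) := by
  have h1 : Summable fun p : ℕ × ℕ => ‖coeff (p.2 + 1 + p.1) f‖ * ‖a‖ ^ p.1 := by
    rw [← (Finset.HasAntidiagonal.sigmaAntidiagonalEquivProd (A := ℕ)).summable_iff,
      summable_sigma_of_nonneg fun p => by simp only [Function.comp_apply]; positivity]
    refine ⟨fun n => (hasSum_fintype _).summable, ?_⟩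
    refine ((summable_nat_add_iff 1).2 hs).congr fun n => ?_
    rw [tsum_fintype, Finset.mul_sum]
    have e1 : ∑ b : (Finset.HasAntidiagonal.antidiagonal n), ((fun p : ℕ × ℕ => ‖coeff (p.2 + 1 + p.1) f‖ *
        ‖a‖ ^ p.1) ∘ Finset.HasAntidiagonal.sigmaAntidiagonalEquivProd) ⟨n, b⟩ =
        ∑ p ∈ Finset.HasAntidiagonal.antidiagonal n, ‖coeff (p.2 + 1 + p.1) f‖ * ‖a‖ ^ p.1 :=
      Finset.sum_coe_sort (Finset.HasAntidiagonal.antidiagonal n)
        (fun p : ℕ × ℕ => ‖coeff (p.2 + 1 + p.1) f‖ * ‖a‖ ^ p.1)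
    rw [e1, Finset.Nat.sum_antidiagonal_eq_sum_range_succ_mk]
    refine Finset.sum_congr rfl fun k hk => ?_
    have : n - k + 1 + k = n + 1 := by
      have := Finset.mem_range.1 hk
      omega
    simp only [this]
  have h2 : Summable fun p : ℕ × ℕ => ‖coeff (p.1 + 1 + p.2) f‖ * ‖a‖ ^ p.2 := h1.prod_symm
  have h3 := h2.prod
  refine Summable.of_nonneg_of_le (fun n => norm_nonneg _) (fun k => ?_) h3
  rw [tq, coeff_mk]
  refine (norm_tsum_le_tsum_norm ?_).trans (le_of_eq ?_)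
  · have h4 := h2.prod_factor k
    simpa only [norm_mul, norm_pow] using h4
  · simp only [norm_mul, norm_pow]

lemma geo_le {a : ℂ} (ha : ‖a‖ < 1) (n : ℕ) : ∑ j ∈ Finset.range n, ‖a‖ ^ j ≤ (1 - ‖a‖)⁻¹ := by
  rw [← tsum_geometric_of_lt_one (norm_nonneg _) ha]
  exact (summable_geometric_of_lt_one (norm_nonneg _) ha).sum_le_tsum _
    fun j _ => pow_nonneg (norm_nonneg _) _

lemma coe_XC (a : ℂ) : ((Polynomial.X - Polynomial.C a : Polynomial ℂ) : ℂ⟦X⟧) =
    PowerSeries.X - PowerSeries.C a := by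
  rw [Polynomial.coe_sub, Polynomial.coe_X, Polynomial.coe_C]

lemma X_sub_C_ne (a : ℂ) : (PowerSeries.X - PowerSeries.C a : ℂ⟦X⟧) ≠ 0 := by
  intro h
  have := congrArg (coeff 1) h
  simp at this

/-- removing an interior root -/
lemma div_int {g : ℂ⟦X⟧} {a : ℂ} (ha : ‖a‖ < 1) (hg : Conv g)
    (h : L1 ((PowerSeries.X - PowerSeries.C a) * g)) : L1 g := by
  by_cases ha0 : a = 0
  · subst ha0
    rw [map_zero, sub_zero] at h
    unfold L1 at h ⊢
    have h1 := (summable_nat_add_iff 1).2 h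
    simpa only [coeff_succ_X_mul] using h1
  set f := (PowerSeries.X - PowerSeries.C a) * g with hf
  have hX : Conv (PowerSeries.X - PowerSeries.C a : ℂ⟦X⟧) := by
    rw [← coe_XC]
    exact (L1.poly _).conv
  have hXe : ev (PowerSeries.X - PowerSeries.C a : ℂ⟦X⟧) a = 0 := by
    rw [← coe_XC, ev_poly]
    simp
  have h0 : ev f a = 0 := by rw [hf, ev_mul' hX hg ha, hXe, zero_mul]
  have h1 := tq_spec (ev_summable h ha.le) ha0 h0
  have h2 : L1 (tq f a) := by
    refine tq_L1 (Summable.of_nonneg_of_le (fun n => mul_nonneg (norm_nonneg _)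
      (Finset.sum_nonneg fun j _ => pow_nonneg (norm_nonneg _) _)) (fun n => ?_)
      (h.mul_right (1 - ‖a‖)⁻¹))
    exact mul_le_mul_of_nonneg_left (geo_le ha n) (norm_nonneg _)
  have h3 : g = tq f a := mul_left_cancel₀ (X_sub_C_ne a) (by rw [← hf]; exact h1)
  rwa [h3]

/-- removing an exterior root -/
lemma div_ext {g : ℂ⟦X⟧} {a : ℂ} (ha : 1 < ‖a‖)
    (h : L1 ((PowerSeries.X - PowerSeries.C a) * g)) : L1 g := by
  have ha0 : a ≠ 0 := by
    rintro rfl
    rw [norm_zero] at ha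
    linarith
  set u : ℂ⟦X⟧ := PowerSeries.mk fun n => -(a⁻¹) ^ (n + 1) with hu
  have hu1 : L1 u := by
    unfold L1
    have h1 : ‖a⁻¹‖ < 1 := by
      rw [norm_inv]
      exact inv_lt_one_of_one_lt₀ ha
    have h2 := (summable_geometric_of_lt_one (norm_nonneg _) h1).mul_right ‖a⁻¹‖
    refine h2.congr fun n => ?_
    rw [hu, coeff_mk, norm_neg, norm_pow, pow_succ]
  have h1 : u * (PowerSeries.X - PowerSeries.C a) = 1 := by
    ext n
    rw [mul_sub, map_sub, coeff_mul_C]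
    rcases n with _ | n
    · rw [coeff_zero_mul_X, hu, coeff_mk, coeff_one, if_pos rfl, zero_add, pow_one]
      field_simp
      simp
    · rw [coeff_succ_mul_X, hu, coeff_mk, coeff_mk, coeff_one, if_neg (Nat.succ_ne_zero n)]
      rw [pow_succ (a⁻¹) (n + 1)]
      field_simp
      simp
  have h2 : g = u * ((PowerSeries.X - PowerSeries.C a) * g) := by
    rw [← mul_assoc, h1, one_mul]
  rw [h2]
  exact hu1.mul h

/-- dividing by a boundary root -/
lemma div_bd {f : ℂ⟦X⟧} {a : ℂ} (ha : ‖a‖ = 1) (hf : Summable fun n : ℕ => ‖coeff n f‖ * n)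
    (hf1 : L1 f) (h0 : ev f a = 0) :
    ∃ g, L1 g ∧ f = (PowerSeries.X - PowerSeries.C a) * g := by
  have ha0 : a ≠ 0 := by
    rintro rfl
    rw [norm_zero] at ha
    exact zero_ne_one ha
  refine ⟨tq f a, tq_L1 ?_, tq_spec (ev_summable hf1 ha.le) ha0 h0⟩
  refine hf.congr fun n => ?_
  rw [ha]
  simp

/-- dividing by several boundary roots -/
lemma div_bds {f : ℂ⟦X⟧} (hf : Summable fun n : ℕ => ‖coeff n f‖ * n)
    (hf1 : L1 f) (Z : Finset ℂ) (hZ : ∀ a ∈ Z, ‖a‖ = 1 ∧ ev f a = 0) :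
    ∃ g, L1 g ∧ f = ((∏ a ∈ Z, (Polynomial.X - Polynomial.C a) : Polynomial ℂ) : ℂ⟦X⟧) * g := by
  classical
  induction Z using Finset.induction_on with
  | empty => exact ⟨f, hf1, by simp⟩
  | insert a Z ha ih =>
    obtain ⟨g, hg, hfg⟩ := ih fun b hb => hZ b (Finset.mem_insert_of_mem hb)
    obtain ⟨h1, h2⟩ := hZ a (Finset.mem_insert_self a Z)
    obtain ⟨k, hk, hfk⟩ := div_bd h1 hf hf1 h2
    have hcop : IsCoprime (Polynomial.X - Polynomial.C a) (∏ b ∈ Z, (Polynomial.X - Polynomial.C b)) := by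
      refine IsCoprime.prod_right fun b hb => ?_
      refine Polynomial.isCoprime_X_sub_C_of_isUnit_sub ?_
      refine isUnit_iff_ne_zero.2 (sub_ne_zero.2 ?_)
      rintro rfl
      exact ha hb
    obtain ⟨u, v, huv⟩ := hcop
    refine ⟨(u : ℂ⟦X⟧) * g + (v : ℂ⟦X⟧) * k, ((L1.poly u).mul hg).add ((L1.poly v).mul hk), ?_⟩
    rw [Finset.prod_insert ha]
    set D : Polynomial ℂ := ∏ b ∈ Z, (Polynomial.X - Polynomial.C b) with hD
    have huv' : (u : ℂ⟦X⟧) * ((Polynomial.X - Polynomial.C a : Polynomial ℂ) : ℂ⟦X⟧) +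
        (v : ℂ⟦X⟧) * (D : ℂ⟦X⟧) = 1 := by
      rw [← Polynomial.coe_mul, ← Polynomial.coe_mul, ← Polynomial.coe_add, huv,
        Polynomial.coe_one]
    have hk' : f = ((Polynomial.X - Polynomial.C a : Polynomial ℂ) : ℂ⟦X⟧) * k := by
      rw [coe_XC]
      exact hfk
    calc f = f * 1 := (mul_one f).symm
      _ = f * ((u : ℂ⟦X⟧) * ((Polynomial.X - Polynomial.C a : Polynomial ℂ) : ℂ⟦X⟧) +
        (v : ℂ⟦X⟧) * (D : ℂ⟦X⟧)) := by rw [huv']
      _ = (u : ℂ⟦X⟧) * ((Polynomial.X - Polynomial.C a : Polynomial ℂ) : ℂ⟦X⟧) * f +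
        (v : ℂ⟦X⟧) * (D : ℂ⟦X⟧) * f := by ring
      _ = (u : ℂ⟦X⟧) * ((Polynomial.X - Polynomial.C a : Polynomial ℂ) : ℂ⟦X⟧) * ((D : ℂ⟦X⟧) * g) +
        (v : ℂ⟦X⟧) * (D : ℂ⟦X⟧) *
          (((Polynomial.X - Polynomial.C a : Polynomial ℂ) : ℂ⟦X⟧) * k) := by
          rw [← hfg, ← hk']
      _ = _ := by
          rw [Polynomial.coe_mul]
          ring

/-- removing all roots off the unit circle -/
lemma div_poly {U : ℂ⟦X⟧} (hU : Conv U) (E : Polynomial ℂ) (hE : E ≠ 0)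
    (hr : ∀ a, E.IsRoot a → ‖a‖ ≠ 1) (h : L1 ((E : ℂ⟦X⟧) * U)) : L1 U := by
  induction hn : E.natDegree generalizing E with
  | zero =>
    obtain ⟨c, rfl⟩ : ∃ c, E = Polynomial.C c := ⟨_, Polynomial.eq_C_of_natDegree_eq_zero hn⟩
    have hc : c ≠ 0 := by
      rintro rfl
      exact hE (map_zero _)
    have h1 : U = ((Polynomial.C c⁻¹ : Polynomial ℂ) : ℂ⟦X⟧) *
        (((Polynomial.C c : Polynomial ℂ) : ℂ⟦X⟧) * U) := by
      rw [← mul_assoc, ← Polynomial.coe_mul, ← Polynomial.C_mul, inv_mul_cancel₀ hc,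
        Polynomial.C_1, Polynomial.coe_one, one_mul]
    rw [h1]
    exact (L1.poly _).mul h
  | succ n ih =>
    have hdeg : 0 < E.degree := by
      rw [Polynomial.degree_eq_natDegree hE, hn]
      exact_mod_cast Nat.succ_pos n
    obtain ⟨a, ha⟩ := Complex.exists_root hdeg
    obtain ⟨E', hE'⟩ := Polynomial.dvd_iff_isRoot.2 ha
    have hE'0 : E' ≠ 0 := by
      rintro rfl
      rw [mul_zero] at hE'
      exact hE hE'
    have hna := hr a ha
    have hconv : Conv ((E' : ℂ⟦X⟧) * U) := (L1.poly E').conv.mul hU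
    have h1 : L1 ((PowerSeries.X - PowerSeries.C a) * ((E' : ℂ⟦X⟧) * U)) := by
      have h2 : (E : ℂ⟦X⟧) * U = (PowerSeries.X - PowerSeries.C a) * ((E' : ℂ⟦X⟧) * U) := by
        rw [← coe_XC, ← mul_assoc, ← Polynomial.coe_mul, ← hE']
      rwa [← h2]
    have h3 : L1 ((E' : ℂ⟦X⟧) * U) := by
      rcases lt_or_gt_of_ne hna with h4 | h4
      · exact div_int h4 hconv h1
      · exact div_ext h4 h1
    refine ih E' hE'0 (fun b hb => hr b ?_) h3 ?_
    · rw [hE', Polynomial.IsRoot, Polynomial.eval_mul, hb.eq_zero, mul_zero]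
    · have h5 := congrArg Polynomial.natDegree hE'
      rw [Polynomial.natDegree_mul (Polynomial.X_sub_C_ne_zero a) hE'0,
        Polynomial.natDegree_X_sub_C, hn] at h5
      omega

end Q194.RW
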