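import Pool.Agent.Q194.RW.Count

/-!
# Integer valued random variables and their generating functions
-/

namespace Q194.RW

open Finset Filter Topology MeasureTheory ProbabilityTheory

variable {Ω : Type*} [MeasurableSpace Ω] {μ : Measure Ω}

lemma meas_eq {X : Ω → ℤ} (hX : Measurable X) (k : ℤ) : MeasurableSet {ω | X ω = k} :=
  hX (measurableSet_singleton k)

lemma hasSum_law {E : Type*} [NormedAddCommGroup E] [NormedSpace ℝ E] [CompleteSpace E]
    [IsProbabilityMeasure μ] {X : Ω → ℤ} (hX : Measurable X)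
    (g : ℤ → E) (hg : Integrable (fun ω => g (X ω)) μ) :
    HasSum (fun k : ℤ => μ.real {ω | X ω = k} • g k) (∫ ω, g (X ω) ∂μ) := by
  have h1 : (⋃ k : ℤ, {ω | X ω = k}) = Set.univ := by
    ext ω
    simp
  have h2 := hasSum_integral_iUnion (μ := μ) (f := fun ω => g (X ω)) (s := fun k : ℤ => {ω | X ω = k})
    (fun k => meas_eq hX k) (fun i j hij => Set.disjoint_left.2 fun ω h3 h4 =>
      hij (h3.symm.trans h4)) (by rw [h1]; exact hg.integrableOn)
  rw [h1, setIntegral_univ] at h2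
  refine h2.congr_fun fun k => ?_
  rw [setIntegral_congr_fun (g := fun _ => g k) (meas_eq hX k) fun ω hω => by
    show g (X ω) = g k
    rw [show X ω = k from hω]]
  rw [setIntegral_const]

lemma hasSum_nat {E : Type*} [NormedAddCommGroup E] [NormedSpace ℝ E] [CompleteSpace E]
    [IsProbabilityMeasure μ] {X : Ω → ℤ} (hX : Measurable X) {m : ℤ}
    (hm : μ.real {ω | X ω < m} = 0) (g : ℤ → E) (hg : Integrable (fun ω => g (X ω)) μ) :
    HasSum (fun n : ℕ => μ.real {ω | X ω = m + n} • g (m + n)) (∫ ω, g (X ω) ∂μ) := by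
  have h1 := hasSum_law hX g hg
  have hinj : Function.Injective fun n : ℕ => m + (n : ℤ) := fun i j hij => by
    have : (i : ℤ) = j := add_left_cancel hij
    exact_mod_cast this
  refine (hinj.hasSum_iff (f := fun k : ℤ => μ.real {ω | X ω = k} • g k) fun k hk => ?_).2 h1
  have h2 : k < m := by
    by_contra hcon
    push Not at hcon
    exact hk ⟨(k - m).toNat, by
      show m + ((k - m).toNat : ℤ) = k
      rw [Int.toNat_of_nonneg (by omega)]
      ring⟩
  have h3 : μ.real {ω | X ω = k} = 0 := by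
    refine le_antisymm ?_ measureReal_nonneg
    rw [← hm]
    refine measureReal_mono fun ω hω => ?_
    show X ω < m
    rw [show X ω = k from hω]
    exact h2
  show μ.real {ω | X ω = k} • g k = 0
  rw [h3, zero_smul]

lemma ae_ge [IsProbabilityMeasure μ] {X : Ω → ℤ} {m : ℤ} (hm : μ.real {ω | X ω < m} = 0) :
    ∀ᵐ ω ∂μ, m ≤ X ω := by
  have h1 : μ {ω | X ω < m} = 0 := (measureReal_eq_zero_iff).1 hm
  rw [ae_iff]
  simpa only [not_le] using h1

lemma int_zpow [IsProbabilityMeasure μ] {X : Ω → ℤ} (hX : Measurable X) {m : ℤ}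
    (hm : ∀ᵐ ω ∂μ, m ≤ X ω) {s : ℂ} (hs0 : s ≠ 0) (hs : ‖s‖ ≤ 1) :
    Integrable (fun ω => s ^ (X ω)) μ := by
  refine Integrable.of_bound ((measurable_from_top (f := fun k : ℤ => s ^ k)).comp
    hX).aestronglyMeasurable (‖s‖ ^ m) ?_
  filter_upwards [hm] with ω hω
  show ‖s ^ (X ω)‖ ≤ ‖s‖ ^ m
  rw [norm_zpow]
  exact zpow_le_zpow_right_of_le_one₀ (norm_pos_iff.2 hs0) hs hω

/-- the generating function as an integral -/
lemma gen_eq [IsProbabilityMeasure μ] {X : Ω → ℤ} (hX : Measurable X) {m : ℤ}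
    (hm : ∀ᵐ ω ∂μ, m ≤ X ω) {s : ℂ} (hs0 : s ≠ 0) (hs : ‖s‖ ≤ 1) :
    ∑' k : ℤ, s ^ k * (μ.real {ω | X ω = k} : ℂ) = ∫ ω, s ^ (X ω) ∂μ := by
  rw [← (hasSum_law hX (fun k => s ^ k) (int_zpow hX hm hs0 hs)).tsum_eq]
  refine tsum_congr fun k => ?_
  rw [Complex.real_smul, mul_comm]

/-- the generating function and the shifted law -/
lemma gen_gf [IsProbabilityMeasure μ] {X : Ω → ℤ} (hX : Measurable X) {m : ℤ}
    (hm : μ.real {ω | X ω < m} = 0) {s : ℂ} (hs0 : s ≠ 0) (hs : ‖s‖ ≤ 1) :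
    ∫ ω, s ^ (X ω) ∂μ = s ^ m * ev (gf fun n => μ.real {ω | X ω = m + n}) s := by
  rw [← (hasSum_nat hX hm (fun k => s ^ k) (int_zpow hX (ae_ge hm) hs0 hs)).tsum_eq]
  unfold ev
  rw [← tsum_mul_left]
  refine tsum_congr fun n => ?_
  rw [coeff_gf, Complex.real_smul, zpow_add₀ hs0, zpow_natCast]
  ring

/-- the shifted law -/
lemma law_of [IsProbabilityMeasure μ] {X : Ω → ℤ} (hX : Measurable X) {m : ℤ}
    (hm : μ.real {ω | X ω < m} = 0) (hpos : 0 < μ.real {ω | X ω = m})
    (hint : Integrable (fun ω => (X ω : ℝ)) μ) :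
    Law (fun n => μ.real {ω | X ω = m + n}) (∫ ω, (X ω : ℝ) ∂μ - m) := by
  refine ⟨fun n => measureReal_nonneg, ?_, by simpa using hpos, ?_⟩
  · have h1 := hasSum_nat hX hm (fun _ => (1 : ℝ)) (integrable_const 1)
    simpa using h1
  · have h1 := hasSum_nat hX hm (fun k => ((k : ℝ) - m)) (hint.sub (integrable_const _))
    rw [integral_sub hint (integrable_const _), integral_const, probReal_univ, one_smul] at h1
    refine h1.congr_fun fun n => ?_
    rw [smul_eq_mul]
    push_cast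
    ring

/-- the cumulative law -/
lemma cum_of [IsProbabilityMeasure μ] {X : Ω → ℤ} (hX : Measurable X) {m : ℤ}
    (hm : μ.real {ω | X ω < m} = 0) (r : ℕ) :
    μ.real {ω | X ω ≤ m + r} = ∑ i ∈ range (r + 1), μ.real {ω | X ω = m + i} := by
  induction r with
  | zero =>
    rw [zero_add, sum_range_one]
    have h1 : {ω | X ω ≤ m + (0 : ℕ)} = {ω | X ω < m} ∪ {ω | X ω = m + (0 : ℕ)} := by
      ext ω
      simp only [Set.mem_setOf_eq, Set.mem_union]
      omega
    rw [h1, measureReal_union _ (meas_eq hX _), hm, zero_add]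
    refine Set.disjoint_left.2 fun ω h2 h3 => ?_
    simp only [Set.mem_setOf_eq] at h2 h3
    omega
  | succ r ih =>
    rw [sum_range_succ, ← ih]
    have h1 : {ω | X ω ≤ m + ((r + 1 : ℕ) : ℤ)} = {ω | X ω ≤ m + r} ∪
        {ω | X ω = m + ((r + 1 : ℕ) : ℤ)} := by
      ext ω
      simp only [Set.mem_setOf_eq, Set.mem_union]
      push_cast
      omega
    rw [h1, measureReal_union _ (meas_eq hX _)]
    refine Set.disjoint_left.2 fun ω h2 h3 => ?_
    simp only [Set.mem_setOf_eq] at h2 h3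
    push_cast at h3
    omega

lemma zpow_sum' {s : ℂ} (hs0 : s ≠ 0) (T : Finset ℕ) (x : ℕ → ℤ) :
    ∏ i ∈ T, s ^ (x i) = s ^ (∑ i ∈ T, x i) := by
  induction T using Finset.induction_on with
  | empty => simp
  | insert a T ha ih => rw [prod_insert ha, sum_insert ha, zpow_add₀ hs0, ih]

/-- the generating function of a sum of independent variables -/
lemma gen_sum {N : ℕ} {X : ℕ → Ω → ℤ} (hX : ∀ j ∈ Icc 1 N, Measurable (X j))
    (hind : iIndepFun (fun j : Finset.Icc 1 N => X j) μ) {T : Finset ℕ} (hT : T ⊆ Icc 1 N)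
    {s : ℂ} (hs0 : s ≠ 0) :
    ∫ ω, s ^ (∑ i ∈ T, X i ω) ∂μ = ∏ i ∈ T, ∫ ω, s ^ (X i ω) ∂μ := by
  have h1 : iIndepFun (fun j : T => X j) μ :=
    hind.precomp (g := fun j : T => (⟨j.1, hT j.2⟩ : Finset.Icc 1 N)) fun i j hij => by
      have := congrArg Subtype.val hij
      exact Subtype.ext this
  have h2 := h1.integral_fun_prod_comp (f := fun _ => fun k : ℤ => s ^ k)
    (fun j => (hX j.1 (hT j.2)).aemeasurable) fun j => measurable_from_top.aestronglyMeasurable
  have h3 : ∀ ω, ∏ i : T, s ^ (X i ω) = s ^ (∑ i ∈ T, X i ω) := by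
    intro ω
    rw [Finset.prod_coe_sort T fun i => s ^ (X i ω), zpow_sum' hs0]
  simp only [h3] at h2
  rw [h2, Finset.prod_coe_sort T fun i => ∫ ω, s ^ (X i ω) ∂μ]

end Q194.RW
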