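import Mathlib

/-!
# The Lindley operator and its stationary vector
-/

namespace Q194.RW

open Finset Filter Topology

/-- the convolution -/
def cv (p v : ℕ → ℝ) (n : ℕ) : ℝ := ∑ i ∈ range (n + 1), p i * v (n - i)

/-- The Lindley operator: the law of `max(0, W + Y - a)`, `Y ∼ p`, `W ∼ v`. -/
def Lin (p : ℕ → ℝ) (a : ℕ) (v : ℕ → ℝ) (k : ℕ) : ℝ :=
  if k = 0 then ∑ n ∈ range (a + 1), cv p v n else cv p v (a + k)

/-- tail iteration -/
noncomputable def tl (p : ℕ → ℝ) (A : ℕ) : ℕ → ℕ → ℝ
  | 0, k => if k = 0 then 1 else 0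
  | n + 1, k => if k = 0 then 1 else ∑' i, p i * tl p A n (k + A - i)

section

variable {p : ℕ → ℝ} (hp : ∀ n, 0 ≤ p n) (hp1 : HasSum p 1) {A : ℕ}

include hp hp1

lemma sm {u : ℕ → ℝ} (h0 : ∀ k, 0 ≤ u k) (h1 : ∀ k, u k ≤ 1) (g : ℕ → ℕ) :
    Summable fun i => p i * u (g i) :=
  Summable.of_nonneg_of_le (fun i => mul_nonneg (hp i) (h0 _))
    (fun i => mul_le_of_le_one_right (hp i) (h1 _)) hp1.summable

lemma tl_zero (n : ℕ) : tl p A n 0 = 1 := by
  cases n <;> simp [tl]

lemma tl_mem (n : ℕ) : (∀ k, 0 ≤ tl p A n k ∧ tl p A n k ≤ 1) ∧ Antitone (tl p A n) := by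
  induction n with
  | zero =>
    refine ⟨fun k => ?_, fun k l hkl => ?_⟩
    · unfold tl
      split_ifs <;> norm_num
    · unfold tl
      split_ifs with h1 h2
      · norm_num
      · exact absurd (Nat.le_zero.1 (h1 ▸ hkl)) h2
      · norm_num
      · norm_num
  | succ n ih =>
    obtain ⟨h1, h2⟩ := ih
    have hs : ∀ k, Summable fun i => p i * tl p A n (k + A - i) := fun k =>
      sm hp hp1 (fun k => (h1 k).1) (fun k => (h1 k).2) fun i => k + A - i
    have hle : ∀ k, ∑' i, p i * tl p A n (k + A - i) ≤ 1 := by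
      intro k
      rw [← hp1.tsum_eq]
      exact (hs k).tsum_le_tsum (fun i => mul_le_of_le_one_right (hp i) (h1 _).2) hp1.summable
    refine ⟨fun k => ?_, fun k l hkl => ?_⟩
    · rw [tl]
      split_ifs
      · norm_num
      · exact ⟨tsum_nonneg fun i => mul_nonneg (hp i) (h1 _).1, hle k⟩
    · rw [tl, tl]
      split_ifs with h3 h4 h4
      · exact le_rfl
      · exact absurd (Nat.le_zero.1 (h3 ▸ hkl)) h4
      · exact hle l
      · exact (hs l).tsum_le_tsum (fun i => mul_le_mul_of_nonneg_left (h2 (by omega)) (hp i)) (hs k)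

lemma tl_sum (n k : ℕ) : Summable fun i => p i * tl p A n (k - i) :=
  sm hp hp1 (fun k => ((tl_mem hp hp1 n).1 k).1) (fun k => ((tl_mem hp hp1 n).1 k).2) fun i => k - i

lemma tl_mono (n : ℕ) : ∀ k, tl p A n k ≤ tl p A (n + 1) k := by
  induction n with
  | zero =>
    intro k
    rcases Nat.eq_zero_or_pos k with rfl | hk
    · rw [tl_zero hp hp1, tl_zero hp hp1]
    · have : tl p A 0 k = 0 := by simp [tl, hk.ne']
      rw [this]
      exact ((tl_mem hp hp1 1).1 k).1
  | succ n ih =>
    intro k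
    rcases Nat.eq_zero_or_pos k with rfl | hk
    · rw [tl_zero hp hp1, tl_zero hp hp1]
    · rw [tl, tl, if_neg hk.ne', if_neg hk.ne']
      exact (tl_sum hp hp1 n _).tsum_le_tsum (fun i => mul_le_mul_of_nonneg_left (ih _) (hp i))
        (tl_sum hp hp1 (n + 1) _)

omit hp hp1 in
/-- the sum of a shifted tail -/
lemma shift_sum {u : ℕ → ℝ} (h0 : u 0 = 1) (hu : Summable u) (i : ℕ) :
    HasSum (fun k => u (k + 1 + A - i)) ((∑' k, u (k + 1)) + ((i - A : ℕ) : ℝ) -
      ∑ j ∈ range (A - i), u (j + 1)) := by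
  have hu1 : Summable fun k => u (k + 1) := (summable_nat_add_iff 1).2 hu
  rcases le_total i A with h | h
  · obtain ⟨d, rfl⟩ := Nat.exists_eq_add_of_le h
    have e1 : i + d - i = d := by omega
    have e2 : i - (i + d) = 0 := by omega
    rw [e1, e2, Nat.cast_zero, add_zero]
    have h1 := (hasSum_nat_add_iff' (f := fun k => u (k + 1)) d).2 hu1.hasSum
    refine h1.congr_fun fun k => ?_
    congr 1
    omega
  · obtain ⟨d, rfl⟩ := Nat.exists_eq_add_of_le h
    have e1 : A + d - A = d := by omega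
    have e2 : A - (A + d) = 0 := by omega
    rw [e1, e2, range_zero, sum_empty, sub_zero]
    have h1 : HasSum (fun k => u (k + d + 1 + A - (A + d))) (∑' k, u (k + 1)) := by
      refine hu1.hasSum.congr_fun fun k => ?_
      congr 1
      omega
    have h2 := (hasSum_nat_add_iff (f := fun k => u (k + 1 + A - (A + d))) d).1 h1
    have h3 : ∑ k ∈ range d, u (k + 1 + A - (A + d)) = d := by
      rw [sum_congr rfl fun k hk => by
        rw [show k + 1 + A - (A + d) = 0 by have := mem_range.1 hk; omega, h0]]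
      simp
    rwa [h3] at h2

lemma tl_step (hpm : Summable fun n : ℕ => (n : ℝ) * p n) (n : ℕ) (hs : Summable (tl p A n)) :
    Summable (tl p A (n + 1)) ∧ (∑' k, tl p A (n + 1) (k + 1)) = (∑' k, tl p A n (k + 1)) +
      (∑' i, p i * ((i - A : ℕ) : ℝ)) - ∑ i ∈ range A, p i * ∑ j ∈ range (A - i), tl p A n (j + 1) := by
  set u := tl p A n with hu
  have hu0 : u 0 = 1 := tl_zero hp hp1 n
  have hun : ∀ k, 0 ≤ u k := fun k => ((tl_mem hp hp1 n).1 k).1
  set e := ∑' k, u (k + 1) with he
  have hsh : ∀ i, HasSum (fun k => p i * u (k + 1 + A - i)) (p i * (e + ((i - A : ℕ) : ℝ) -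
      ∑ j ∈ range (A - i), u (j + 1))) := fun i => (shift_sum hu0 hs i).mul_left _
  have hpA : Summable fun i : ℕ => p i * ((i - A : ℕ) : ℝ) := by
    refine Summable.of_nonneg_of_le (fun i => mul_nonneg (hp i) (Nat.cast_nonneg _)) (fun i => ?_) hpm
    rw [mul_comm]
    exact mul_le_mul_of_nonneg_right (by exact_mod_cast Nat.sub_le i A) (hp i)
  have hfin : HasSum (fun i => p i * ∑ j ∈ range (A - i), u (j + 1))
      (∑ i ∈ range A, p i * ∑ j ∈ range (A - i), u (j + 1)) := by
    refine hasSum_sum_of_ne_finset_zero fun i hi => ?_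
    have : A - i = 0 := by
      have := mt mem_range.2 hi
      omega
    rw [this, range_zero, sum_empty, mul_zero]
  have htot : HasSum (fun i => p i * (e + ((i - A : ℕ) : ℝ) - ∑ j ∈ range (A - i), u (j + 1)))
      (e + (∑' i, p i * ((i - A : ℕ) : ℝ)) - ∑ i ∈ range A, p i * ∑ j ∈ range (A - i), u (j + 1)) := by
    have h1 := ((hp1.mul_right e).add hpA.hasSum).sub hfin
    rw [one_mul] at h1
    refine h1.congr_fun fun i => ?_
    ring
  have hprod : Summable fun q : ℕ × ℕ => p q.1 * u (q.2 + 1 + A - q.1) := by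
    rw [summable_prod_of_nonneg fun q => mul_nonneg (hp _) (hun _)]
    refine ⟨fun i => (hsh i).summable, ?_⟩
    refine htot.summable.congr fun i => ?_
    exact (hsh i).tsum_eq.symm
  have h2 : ∀ k, tl p A (n + 1) (k + 1) = ∑' i, p i * u (k + 1 + A - i) := by
    intro k
    rw [tl, if_neg (Nat.succ_ne_zero k)]
  have h3 : HasSum (fun k => ∑' i, p i * u (k + 1 + A - i)) (e + (∑' i, p i * ((i - A : ℕ) : ℝ)) -
      ∑ i ∈ range A, p i * ∑ j ∈ range (A - i), u (j + 1)) := by
    have h4 : Summable fun q : ℕ × ℕ => p q.2 * u (q.1 + 1 + A - q.2) := hprod.prod_symm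
    have h5 : ∑' k, ∑' i, p i * u (k + 1 + A - i) = ∑' i, ∑' k, p i * u (k + 1 + A - i) := by
      refine (Summable.tsum_comm' (f := fun k i => p i * u (k + 1 + A - i)) h4 (fun k => ?_)
        fun i => (hsh i).summable).symm
      exact tl_sum hp hp1 n (k + 1 + A)
    have h6 : ∑' i, ∑' k, p i * u (k + 1 + A - i) = e + (∑' i, p i * ((i - A : ℕ) : ℝ)) -
        ∑ i ∈ range A, p i * ∑ j ∈ range (A - i), u (j + 1) := by
      rw [← htot.tsum_eq]
      exact tsum_congr fun i => (hsh i).tsum_eq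
    rw [← h6, ← h5]
    exact h4.prod.hasSum
  refine ⟨?_, ?_⟩
  · rw [← summable_nat_add_iff 1]
    refine h3.summable.congr fun k => ?_
    rw [h2]
  · rw [← h3.tsum_eq]
    exact tsum_congr fun k => h2 k

/-- **The stationary vector.** -/
theorem exists_stat (hpm : Summable fun n : ℕ => (n : ℝ) * p n)
    (hA : ∑' n : ℕ, (n : ℝ) * p n < A) : ∃ v : ℕ → ℝ, (∀ n, 0 ≤ v n) ∧ Summable v ∧
      (∃ n, v n ≠ 0) ∧ ∀ k, Lin p A v k = v k := by
  have hs : ∀ n, Summable (tl p A n) := by
    intro n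
    induction n with
    | zero =>
      refine summable_of_ne_finset_zero (s := {0}) fun k hk => ?_
      rw [tl, if_neg (by simpa using hk)]
    | succ n ih => exact (tl_step hp hp1 hpm n ih).1
  have hmono : ∀ k, Monotone fun n => tl p A n k := fun k =>
    monotone_nat_of_le_succ fun n => tl_mono hp hp1 n k
  have hbdd : ∀ k, BddAbove (Set.range fun n => tl p A n k) := fun k =>
    ⟨1, by rintro _ ⟨n, rfl⟩; exact ((tl_mem hp hp1 n).1 k).2⟩
  set T : ℕ → ℝ := fun k => ⨆ n, tl p A n k with hT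
  have hlim : ∀ k, Tendsto (fun n => tl p A n k) atTop (𝓝 (T k)) := fun k =>
    tendsto_atTop_ciSup (hmono k) (hbdd k)
  have hT0 : T 0 = 1 := by
    simp only [hT, tl_zero hp hp1, ciSup_const]
  have hTn : ∀ k, 0 ≤ T k := fun k => ge_of_tendsto' (hlim k) fun n => ((tl_mem hp hp1 n).1 k).1
  have hT1 : ∀ k, T k ≤ 1 := fun k => le_of_tendsto' (hlim k) fun n => ((tl_mem hp hp1 n).1 k).2
  have hTa : Antitone T := fun k l hkl =>
    le_of_tendsto_of_tendsto' (hlim l) (hlim k) fun n => (tl_mem hp hp1 n).2 hkl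
  have hTs : ∀ K, Summable fun i => p i * T (K - i) := fun K => sm hp hp1 hTn hT1 fun i => K - i
  have hfix : ∀ k, T (k + 1) = ∑' i, p i * T (k + 1 + A - i) := by
    intro k
    have h1 : Tendsto (fun n => ∑' i, p i * tl p A n (k + 1 + A - i)) atTop
        (𝓝 (∑' i, p i * T (k + 1 + A - i))) := by
      refine tendsto_tsum_of_dominated_convergence (bound := p) hp1.summable
        (fun i => (hlim _).const_mul _) (Eventually.of_forall fun n i => ?_)
      rw [Real.norm_eq_abs, abs_of_nonneg (mul_nonneg (hp i) ((tl_mem hp hp1 n).1 _).1)]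
      exact mul_le_of_le_one_right (hp i) ((tl_mem hp hp1 n).1 _).2
    have h2 : Tendsto (fun n => tl p A (n + 1) (k + 1)) atTop (𝓝 (T (k + 1))) :=
      (hlim (k + 1)).comp (tendsto_add_atTop_nat 1)
    refine tendsto_nhds_unique h2 (h1.congr fun n => ?_)
    rw [tl, if_neg (Nat.succ_ne_zero k)]
  -- `T` is not constant
  have hne : ∃ k, T k ≠ 1 := by
    by_contra hcon
    push Not at hcon
    have h1 : ∀ n, ∑ i ∈ range A, p i * ∑ j ∈ range (A - i), tl p A n (j + 1) ≤
        ∑' i, p i * ((i - A : ℕ) : ℝ) := by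
      intro n
      have h2 := (tl_step (A := A) hp hp1 hpm n (hs n)).2
      have h3 : (∑' k, tl p A n (k + 1)) ≤ ∑' k, tl p A (n + 1) (k + 1) :=
        ((summable_nat_add_iff 1).2 (hs n)).tsum_le_tsum (fun k => tl_mono hp hp1 n _)
          ((summable_nat_add_iff 1).2 (hs (n + 1)))
      linarith
    have h2 : Tendsto (fun n => ∑ i ∈ range A, p i * ∑ j ∈ range (A - i), tl p A n (j + 1)) atTop
        (𝓝 (∑ i ∈ range A, p i * ∑ j ∈ range (A - i), T (j + 1))) :=
      tendsto_finsetSum _ fun i _ => (tendsto_finsetSum _ fun j _ => hlim _).const_mul _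
    have h3 := le_of_tendsto' h2 h1
    simp only [hcon, sum_const, card_range, nsmul_eq_mul, mul_one] at h3
    have hpA : Summable fun i : ℕ => p i * ((i - A : ℕ) : ℝ) := by
      refine Summable.of_nonneg_of_le (fun i => mul_nonneg (hp i) (Nat.cast_nonneg _))
        (fun i => ?_) hpm
      rw [mul_comm]
      exact mul_le_mul_of_nonneg_right (by exact_mod_cast Nat.sub_le i A) (hp i)
    have hfin : HasSum (fun i => p i * ((A - i : ℕ) : ℝ)) (∑ i ∈ range A, p i * ((A - i : ℕ) : ℝ)) := by
      refine hasSum_sum_of_ne_finset_zero fun i hi => ?_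
      have : A - i = 0 := by
        have := mt mem_range.2 hi
        omega
      rw [this, Nat.cast_zero, mul_zero]
    have h4 : HasSum (fun i : ℕ => (i : ℝ) * p i) (A + (∑' i, p i * ((i - A : ℕ) : ℝ)) -
        ∑ i ∈ range A, p i * ((A - i : ℕ) : ℝ)) := by
      have h5 := ((hp1.mul_right (A : ℝ)).add hpA.hasSum).sub hfin
      rw [one_mul] at h5
      refine h5.congr_fun fun i => ?_
      have h6 : (i : ℝ) = A + ((i - A : ℕ) : ℝ) - ((A - i : ℕ) : ℝ) := by
        rcases le_total i A with h | h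
        · rw [Nat.sub_eq_zero_of_le h, Nat.cast_sub h]
          push_cast
          ring
        · rw [Nat.sub_eq_zero_of_le h, Nat.cast_sub h]
          push_cast
          ring
      conv_lhs => rw [h6]
      ring
    rw [h4.tsum_eq] at hA
    linarith
  refine ⟨fun k => T k - T (k + 1), fun k => sub_nonneg.2 (hTa (Nat.le_succ k)), ?_, ?_, ?_⟩
  · refine summable_of_sum_range_le (c := 1) (fun k => sub_nonneg.2 (hTa (Nat.le_succ k))) fun n => ?_
    rw [sum_range_sub', hT0]
    linarith [hTn n]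
  · by_contra hcon
    push Not at hcon
    obtain ⟨k, hk⟩ := hne
    refine hk ?_
    clear hk
    induction k with
    | zero => exact hT0
    | succ k ih => linarith [hcon k]
  · -- the fixed point equation
    set τ : ℕ → ℝ := fun K => ∑' i, p i * T (K - i) with hτ
    have hτ0 : τ 0 = 1 := by
      simp only [hτ, Nat.zero_sub, hT0, mul_one]
      exact hp1.tsum_eq
    have hcv : ∀ n, cv p (fun k => T k - T (k + 1)) n = τ n - τ (n + 1) := by
      intro n
      have h1 : HasSum (fun i => p i * T (n - i) - p i * T (n + 1 - i)) (τ n - τ (n + 1)) :=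
        (hTs n).hasSum.sub (hTs (n + 1)).hasSum
      have h2 : HasSum (fun i => p i * T (n - i) - p i * T (n + 1 - i))
          (∑ i ∈ range (n + 1), (p i * T (n - i) - p i * T (n + 1 - i))) := by
        refine hasSum_sum_of_ne_finset_zero fun i hi => ?_
        have h3 : n - i = 0 ∧ n + 1 - i = 0 := by
          have := mt mem_range.2 hi
          omega
        rw [h3.1, h3.2, sub_self]
      rw [← h2.unique h1, cv]
      refine sum_congr rfl fun i hi => ?_
      have : n - i + 1 = n + 1 - i := by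
        have := mem_range.1 hi
        omega
      rw [this]
      ring
    have hTτ : ∀ k, T (k + 1) = τ (A + (k + 1)) := by
      intro k
      rw [hfix]
      simp only [hτ]
      refine tsum_congr fun i => ?_
      rw [add_comm (k + 1) A]
    intro k
    rcases k with _ | k
    · rw [Lin, if_pos rfl]
      simp only [hcv]
      rw [sum_range_sub', hτ0, zero_add, hTτ 0, hT0]
    · rw [Lin, if_neg (Nat.succ_ne_zero k), hcv]
      show _ = T (k + 1) - T (k + 1 + 1)
      rw [hTτ k, hTτ (k + 1)]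
      rfl

end

end Q194.RW
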