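import Pool.Agent.Q194.RW.Prob

/-!
# Reindexing lemmas
-/

namespace Q194.RW

open Finset Filter Topology

/-- the cyclic order `N, 1, 2, ..., N-1` -/
def zz (N t : ℕ) : ℕ := if t = 0 ∨ N ≤ t then N else t

lemma zz_zero (N : ℕ) : zz N 0 = N := by simp [zz]

lemma zz_mid {N t : ℕ} (h0 : t ≠ 0) (h : t < N) : zz N t = t := by
  unfold zz
  rw [if_neg (by omega)]

lemma zz_mem {N : ℕ} (hN : 1 ≤ N) (t : ℕ) : zz N t ∈ Icc 1 N := by
  unfold zz
  rw [mem_Icc]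
  split_ifs with h
  · omega
  · omega

lemma zz_prod {M : Type*} [CommMonoid M] (N : ℕ) (h : ℕ → M) (t : ℕ) (ht1 : 1 ≤ t) (ht : t ≤ N) :
    ∏ i ∈ range t, h (zz N i) = h N * ∏ i ∈ Icc 1 (t - 1), h i := by
  induction t, ht1 using Nat.le_induction with
  | base => simp [zz_zero]
  | succ t ht1 ih =>
    rw [prod_range_succ, ih (by omega), zz_mid (by omega) (by omega), Nat.add_sub_cancel]
    have h1 : Icc 1 t = insert t (Icc 1 (t - 1)) := by
      ext i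
      simp only [mem_Icc, mem_insert]
      omega
    rw [h1, prod_insert (by simp only [mem_Icc]; omega), mul_assoc, mul_comm (h t)]

lemma zz_prod_all {M : Type*} [CommMonoid M] {N : ℕ} (hN : 1 ≤ N) (h : ℕ → M) :
    ∏ i ∈ range N, h (zz N i) = ∏ i ∈ Icc 1 N, h i := by
  rw [zz_prod N h N hN le_rfl]
  have h1 : Icc 1 N = insert N (Icc 1 (N - 1)) := by
    ext i
    simp only [mem_Icc, mem_insert]
    omega
  rw [h1, prod_insert (by simp only [mem_Icc]; omega)]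

lemma zz_sum_all {M : Type*} [AddCommMonoid M] {N : ℕ} (hN : 1 ≤ N) (h : ℕ → M) :
    ∑ i ∈ range N, h (zz N i) = ∑ i ∈ Icc 1 N, h i :=
  zz_prod_all (M := Multiplicative M) hN h

lemma gf_L1' {q : ℕ → ℝ} {m : ℝ} (hq : Law q m) : L1 (gf q) := gf_L1 hq.nn hq.one.summable

/-- evaluation of a product -/
lemma ev_prod {p : ℕ → ℕ → ℝ} {m : ℕ → ℝ} (hl : ∀ t, Law (p t) (m t)) (t : ℕ) {s : ℂ} (hs : ‖s‖ ≤ 1) :
    L1 (∏ i ∈ range t, gf (p i)) ∧ ev (∏ i ∈ range t, gf (p i)) s = ∏ i ∈ range t, ev (gf (p i)) s := by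
  induction t with
  | zero =>
    rw [range_zero, prod_empty, prod_empty]
    have h1 : (1 : PowerSeries ℂ) = ((1 : Polynomial ℂ) : PowerSeries ℂ) := by
      rw [Polynomial.coe_one]
    rw [h1]
    exact ⟨L1.poly 1, by rw [ev_poly]; simp⟩
  | succ t ih =>
    rw [prod_range_succ, prod_range_succ]
    exact ⟨ih.1.mul (gf_L1' (hl t)), by rw [ev_mul ih.1 (gf_L1' (hl t)) hs, ih.2]⟩

lemma ev_Xpow (n : ℕ) (s : ℂ) : L1 (PowerSeries.X ^ n : PowerSeries ℂ) ∧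
    ev (PowerSeries.X ^ n : PowerSeries ℂ) s = s ^ n := by
  have hXA : (PowerSeries.X ^ n : PowerSeries ℂ) = ((Polynomial.X ^ n : Polynomial ℂ) : PowerSeries ℂ) := by
    rw [Polynomial.coe_pow, Polynomial.coe_X]
  rw [hXA, ev_poly]
  exact ⟨L1.poly _, by simp⟩

lemma ev_add {f g : PowerSeries ℂ} (hf : L1 f) (hg : L1 g) {s : ℂ} (hs : ‖s‖ ≤ 1) :
    ev (f + g) s = ev f s + ev g s := by
  unfold ev
  rw [← (ev_summable hf hs).of_norm.tsum_add (ev_summable hg hs).of_norm]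
  refine tsum_congr fun n => ?_
  rw [map_add, add_mul]

lemma ev_sub {f g : PowerSeries ℂ} (hf : L1 f) (hg : L1 g) {s : ℂ} (hs : ‖s‖ ≤ 1) :
    ev (f - g) s = ev f s - ev g s := by
  unfold ev
  rw [← (ev_summable hf hs).of_norm.tsum_sub (ev_summable hg hs).of_norm]
  refine tsum_congr fun n => ?_
  rw [map_sub, sub_mul]

lemma ev_sum {ι : Type*} (S : Finset ι) (f : ι → PowerSeries ℂ) (h : ∀ i ∈ S, L1 (f i)) {s : ℂ}
    (hs : ‖s‖ ≤ 1) : L1 (∑ i ∈ S, f i) ∧ ev (∑ i ∈ S, f i) s = ∑ i ∈ S, ev (f i) s := by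
  classical
  induction S using Finset.induction_on with
  | empty =>
    rw [sum_empty, sum_empty]
    refine ⟨W1.zero.l1, ?_⟩
    unfold ev
    simp
  | insert a S ha ih =>
    have h1 := ih fun i hi => h i (mem_insert_of_mem hi)
    have h2 := h a (mem_insert_self a S)
    rw [sum_insert ha, sum_insert ha]
    exact ⟨h2.add h1.1, by rw [ev_add h2 h1.1 hs, h1.2]⟩

/-- the value of the numerator -/
lemma ev_Psi {p : ℕ → ℕ → ℝ} {m : ℕ → ℝ} (hl : ∀ t, Law (p t) (m t)) (a : ℕ → ℕ) (c : ℕ → ℕ → ℂ)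
    (N : ℕ) {s : ℂ} (hs : ‖s‖ ≤ 1) : L1 (Psi p a c N) ∧ ev (Psi p a c N) s =
      ∑ t ∈ range N, s ^ ((∑ i ∈ range N, a i) - ∑ i ∈ range (t + 1), a i) *
        (∏ i ∈ range t, ev (gf (p i)) s) * ∑ n ∈ range (a t), c t n *
          ∑ r ∈ range (a t - n), s ^ (r + n) * ((∑ i ∈ range (r + 1), p t i : ℝ) : ℂ) := by
  have h1 : ∀ t ∈ range N, L1 (PowerSeries.X ^ ((∑ i ∈ range N, a i) - ∑ i ∈ range (t + 1), a i) *
    (∏ i ∈ range t, gf (p i)) * (HH p a c t : PowerSeries ℂ)) := fun t _ =>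
    ((ev_Xpow _ s).1.mul (ev_prod hl t hs).1).mul (L1.poly _)
  have h2 := ev_sum (range N) _ h1 hs
  refine ⟨h2.1, ?_⟩
  unfold Psi
  rw [h2.2]
  refine sum_congr rfl fun t _ => ?_
  rw [ev_mul ((ev_Xpow _ s).1.mul (ev_prod hl t hs).1) (L1.poly _) hs,
    ev_mul (ev_Xpow _ s).1 (ev_prod hl t hs).1 hs, (ev_Xpow _ s).2, (ev_prod hl t hs).2, ev_poly]
  congr 1
  unfold HH
  rw [Polynomial.eval_finsetSum]
  have h3 : ∀ n ∈ range (a t), c t n * ∑ r ∈ range (a t - n), s ^ (r + n) *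
      ((∑ i ∈ range (r + 1), p t i : ℝ) : ℂ) = ∑ r ∈ range (a t - n), (fun n r => c t n * (s ^ (r + n) *
      ((∑ i ∈ range (r + 1), p t i : ℝ) : ℂ))) n r := fun n _ => by rw [mul_sum]
  rw [sum_congr rfl h3, ← sum_range_diag_flip]
  refine sum_congr rfl fun k _ => ?_
  rw [Polynomial.eval_mul, Polynomial.eval_C, Polynomial.eval_pow, Polynomial.eval_X, Th, sum_mul]
  refine sum_congr rfl fun n hn => ?_
  have h4 : k - n + n = k := by
    have := mem_range.1 hn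
    omega
  simp only [h4]
  ring

end Q194.RW
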